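import Pool.Agent.Q106.UR.Mean

/-!
# Systems of linear forms
-/

set_option autoImplicit false

namespace Pool.Agent.Q106.LF

open Finset MeasureTheory ProbabilityTheory Filter Pool.Agent.Q120.GM Pool.Agent.Q106.UR
open scoped Topology

/-- The values of the forms `a x + b`, `(a, b) ∈ F`, at `n`. -/
def vals (F : Finset (ℕ × ℕ)) (n : ℕ) : Finset ℕ := F.image (fun f => f.1 * n + f.2)

/-- All values at `n` are coprime to `Q`. -/
def GoodF (Q : ℕ) (F : Finset (ℕ × ℕ)) (n : ℕ) : Prop := ∀ f ∈ F, (f.1 * n + f.2).Coprime Q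

instance (Q : ℕ) (F : Finset (ℕ × ℕ)) : DecidablePred (GoodF Q F) := fun n => by unfold GoodF; infer_instance

/-- The number of the classes `n` modulo `Q` for which all values are coprime to `Q`. -/
def ccF (Q : ℕ) (F : Finset (ℕ × ℕ)) : ℕ := ((range Q).filter (GoodF Q F)).card

/-- The singular series of level `Q`. -/
noncomputable def singF (Q : ℕ) (F : Finset (ℕ × ℕ)) : ℝ := (ccF Q F : ℝ) / Q * ((Q : ℝ) / Nat.totient Q) ^ F.card

theorem mem_vals {F : Finset (ℕ × ℕ)} {n m : ℕ} : m ∈ vals F n ↔ ∃ f ∈ F, m = f.1 * n + f.2 := by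
  unfold vals
  rw [mem_image]
  constructor
  · rintro ⟨f, h1, h2⟩
    exact ⟨f, h1, h2.symm⟩
  · rintro ⟨f, h1, h2⟩
    exact ⟨f, h1, h2.symm⟩

theorem card_vals_le (F : Finset (ℕ × ℕ)) (n : ℕ) : (vals F n).card ≤ F.card := card_image_le

theorem goodF_periodic (Q : ℕ) (F : Finset (ℕ × ℕ)) : Function.Periodic (GoodF Q F) Q := by
  intro n
  unfold GoodF
  rw [eq_iff_iff]
  refine forall₂_congr (fun f _ => ?_)
  rw [show f.1 * (n + Q) + f.2 = (f.1 * n + f.2) + Q * f.1 by ring, Nat.coprime_add_mul_left_left]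

theorem countF_block (Q : ℕ) (F : Finset (ℕ × ℕ)) (a : ℕ) : ((Ico a (a + Q)).filter (GoodF Q F)).card = ccF Q F := by
  rw [Nat.filter_Ico_card_eq_of_periodic _ _ _ (goodF_periodic Q F), Nat.count_eq_card_filter_range]
  rfl

theorem countF_blocks (Q : ℕ) (F : Finset (ℕ × ℕ)) (a m : ℕ) :
    ((Ico a (a + m * Q)).filter (GoodF Q F)).card = m * ccF Q F := by
  induction m with
  | zero => simp
  | succ m ih =>
    have h1 : Ico a (a + (m + 1) * Q) = Ico a (a + m * Q) ∪ Ico (a + m * Q) (a + m * Q + Q) := by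
      rw [Ico_union_Ico_eq_Ico (by omega) (by omega)]
      congr 1
      ring
    rw [h1, filter_union, card_union_of_disjoint, ih, countF_block]
    · ring
    · exact (Ico_disjoint_Ico_consecutive _ _ _).mono (filter_subset _ _) (filter_subset _ _)

/-- The count of good integers in an interval. -/
theorem countF_real {Q : ℕ} (hQ : 1 ≤ Q) (F : Finset (ℕ × ℕ)) (a w : ℕ) :
    ((w : ℝ) - Q) * ((ccF Q F : ℝ) / Q) ≤ (((Ico a (a + w)).filter (GoodF Q F)).card : ℝ) ∧
      (((Ico a (a + w)).filter (GoodF Q F)).card : ℝ) ≤ ((w : ℝ) + Q) * ((ccF Q F : ℝ) / Q) := by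
  have g1 := Nat.div_mul_le_self w Q
  have g2 : w < (w / Q + 1) * Q := by
    have := Nat.lt_div_mul_add (a := w) (b := Q) (by omega)
    linarith [this, show (w / Q + 1) * Q = w / Q * Q + Q by ring]
  have h1 : w / Q * ccF Q F ≤ ((Ico a (a + w)).filter (GoodF Q F)).card := by
    rw [← countF_blocks Q F a]
    apply card_le_card
    apply filter_subset_filter
    exact Ico_subset_Ico_right (by omega)
  have h2 : ((Ico a (a + w)).filter (GoodF Q F)).card ≤ (w / Q + 1) * ccF Q F := by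
    rw [← countF_blocks Q F a]
    apply card_le_card
    apply filter_subset_filter
    exact Ico_subset_Ico_right (by omega)
  have hQ0 : (0 : ℝ) < Q := by exact_mod_cast hQ
  have h1' : ((w / Q : ℕ) : ℝ) * ccF Q F ≤ (((Ico a (a + w)).filter (GoodF Q F)).card : ℝ) := by exact_mod_cast h1
  have h2' : (((Ico a (a + w)).filter (GoodF Q F)).card : ℝ) ≤ (((w / Q : ℕ) : ℝ) + 1) * ccF Q F := by exact_mod_cast h2
  have h3 : ((w / Q : ℕ) : ℝ) ≤ w / Q := Nat.cast_div_le
  have h4 : (w : ℝ) / Q < ((w / Q : ℕ) : ℝ) + 1 := by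
    rw [div_lt_iff₀ hQ0]
    have h5 : (w : ℝ) < (((w / Q + 1) * Q : ℕ) : ℝ) := by exact_mod_cast g2
    push_cast at h5
    exact h5
  have hc : (0 : ℝ) ≤ ccF Q F := Nat.cast_nonneg _
  constructor
  · refine le_trans ?_ h1'
    have h5 : ((w : ℝ) - Q) * ((ccF Q F : ℝ) / Q) = ((w : ℝ) / Q - 1) * ccF Q F := by field_simp
    rw [h5]
    apply mul_le_mul_of_nonneg_right _ hc
    linarith
  · refine h2'.trans ?_
    have h5 : ((w : ℝ) + Q) * ((ccF Q F : ℝ) / Q) = ((w : ℝ) / Q + 1) * ccF Q F := by field_simp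
    rw [h5]
    apply mul_le_mul_of_nonneg_right _ hc
    linarith

theorem singF_eq (Q : ℕ) (F : Finset (ℕ × ℕ)) : singF Q F = (ccF Q F : ℝ) / Q * qq Q ^ F.card := rfl

theorem qq_one {Q : ℕ} (hQ : 1 ≤ Q) : 1 ≤ qq Q := by
  unfold qq
  have h1 : 0 < Nat.totient Q := Nat.totient_pos.2 hQ
  have h2 : (0 : ℝ) < Nat.totient Q := by exact_mod_cast h1
  rw [le_div_iff₀ h2, one_mul]
  exact_mod_cast Nat.totient_le Q

theorem ccF_pos {Q : ℕ} {F : Finset (ℕ × ℕ)} (hs : 0 < singF Q F) : 1 ≤ ccF Q F := by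
  by_contra hcon
  have h0 : ccF Q F = 0 := by omega
  unfold singF at hs
  rw [h0] at hs
  norm_num at hs

theorem singF_ge {Q : ℕ} (hQ : 1 ≤ Q) {F : Finset (ℕ × ℕ)} (hs : 0 < singF Q F) : 1 / (Q : ℝ) ≤ singF Q F := by
  have hQ0 : (0 : ℝ) < Q := by exact_mod_cast hQ
  have h1 : (1 : ℝ) ≤ ccF Q F := by exact_mod_cast ccF_pos hs
  rw [singF_eq]
  have h2 : 1 ≤ qq Q ^ F.card := one_le_pow₀ (qq_one hQ)
  calc 1 / (Q : ℝ) ≤ (ccF Q F : ℝ) / Q := div_le_div_of_nonneg_right h1 hQ0.le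
    _ = (ccF Q F : ℝ) / Q * 1 := by ring
    _ ≤ (ccF Q F : ℝ) / Q * qq Q ^ F.card := mul_le_mul_of_nonneg_left h2 (by positivity)

/-- Systems of `k` forms `a x + b` with `1 ≤ b < a`. -/
def Sys (k : ℕ) (F : Finset (ℕ × ℕ)) : Prop := F.card = k ∧ ∀ f ∈ F, 1 ≤ f.2 ∧ f.2 < f.1

/-- The values at one argument are never contained in those at another one. -/
theorem vals_ne {F : Finset (ℕ × ℕ)} (hF : F.Nonempty) (ha : ∀ f ∈ F, 1 ≤ f.1) {i j : ℕ} (hij : i ≠ j) :
    ¬ vals F j ⊆ vals F i := by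
  intro h
  rcases Nat.lt_or_gt_of_ne hij with hlt | hgt
  · -- the largest value
    obtain ⟨f, hf, hmax⟩ := Finset.exists_max_image F (fun f => f.1 * j + f.2) hF
    obtain ⟨g, hg, e⟩ := mem_vals.1 (h (mem_vals.2 ⟨f, hf, rfl⟩))
    have h1 := hmax g hg
    have h2 : g.1 * i < g.1 * j := Nat.mul_lt_mul_of_pos_left hlt (ha g hg)
    omega
  · obtain ⟨f, hf, hmin⟩ := Finset.exists_min_image F (fun f => f.1 * j + f.2) hF
    obtain ⟨g, hg, e⟩ := mem_vals.1 (h (mem_vals.2 ⟨f, hf, rfl⟩))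
    have h1 := hmin g hg
    have h2 : g.1 * j < g.1 * i := Nat.mul_lt_mul_of_pos_left hgt (ha g hg)
    omega

theorem pairF_le {Q : ℕ} {F : Finset (ℕ × ℕ)} (hF : F.Nonempty) (ha : ∀ f ∈ F, 1 ≤ f.1) {i j : ℕ} (hij : i ≠ j) {x : ℝ}
    (hx : 0 < Real.log x) (hx0 : 0 < x) (hj : x ≤ j) :
    pT (level Q) (vals F i ∪ vals F j) ≤ pT (level Q) (vals F i) * (qq Q / Real.log x) := by
  have h1 := vals_ne hF ha hij
  rw [Finset.not_subset] at h1
  obtain ⟨b, hb1, hb2⟩ := h1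
  have h2 : insert b (vals F i) ⊆ vals F i ∪ vals F j := by
    intro c hc
    rw [mem_insert] at hc
    rcases hc with rfl | hc
    · exact mem_union_right _ hb1
    · exact mem_union_left _ hc
  have h3 : pT (level Q) (vals F i ∪ vals F j) ≤ pT (level Q) (insert b (vals F i)) := by
    unfold pT
    rw [← prod_sdiff h2]
    have e1 : ∏ i ∈ (vals F i ∪ vals F j) \ insert b (vals F i), level Q i ≤ 1 :=
      prod_le_one (fun i _ => level_nonneg Q i) (fun i _ => level_le_one Q i)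
    have e2 : 0 ≤ ∏ i ∈ insert b (vals F i), level Q i := prod_nonneg (fun i _ => level_nonneg Q i)
    nlinarith
  refine h3.trans ?_
  unfold pT
  rw [prod_insert hb2, mul_comm]
  refine mul_le_mul_of_nonneg_left ?_ (prod_nonneg (fun i _ => level_nonneg Q i))
  obtain ⟨f, hf, rfl⟩ := mem_vals.1 hb1
  refine level_le hx hx0 ?_
  push_cast
  have e1 : (1 : ℝ) ≤ f.1 := by exact_mod_cast ha f hf
  have e2 : (0 : ℝ) ≤ f.2 := Nat.cast_nonneg _
  have e3 : (0 : ℝ) ≤ j := Nat.cast_nonneg _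
  nlinarith

theorem confF_card (F : Finset (ℕ × ℕ)) (ha : ∀ f ∈ F, 1 ≤ f.1) (J : Finset ℕ) (i : ℕ) :
    (J.filter (fun j => i ≠ j ∧ ¬ Disjoint (vals F i) (vals F j))).card ≤ F.card ^ 2 := by
  rw [sq, ← card_product]
  have h4 : J.filter (fun j => i ≠ j ∧ ¬ Disjoint (vals F i) (vals F j)) ⊆
      (F ×ˢ F).image (fun q : (ℕ × ℕ) × (ℕ × ℕ) => (q.1.1 * i + q.1.2 - q.2.2) / q.2.1) := by
    intro l hl
    rw [mem_filter, Finset.not_disjoint_iff] at hl
    obtain ⟨_, _, b, hi1, hi2⟩ := hl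
    obtain ⟨f, hf, e1⟩ := mem_vals.1 hi1
    obtain ⟨g, hg, e2⟩ := mem_vals.1 hi2
    rw [mem_image]
    refine ⟨(f, g), mem_product.2 ⟨hf, hg⟩, ?_⟩
    show (f.1 * i + f.2 - g.2) / g.1 = l
    rw [← e1, e2, Nat.add_sub_cancel]
    exact Nat.mul_div_cancel_left l (ha g hg)
  exact (card_le_card h4).trans card_image_le

theorem cfF_sum_le (F : Finset (ℕ × ℕ)) (ha : ∀ f ∈ F, 1 ≤ f.1) (J : Finset ℕ) (g : ℕ → ℝ) (hg : ∀ n, 0 ≤ g n) :
    ∑ e ∈ cf J (vals F), g e.1 ≤ (F.card : ℝ) ^ 2 * ∑ n ∈ J, g n := by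
  rw [sum_cf, mul_sum]
  refine sum_le_sum (fun j _ => ?_)
  simp only [sum_const, nsmul_eq_mul]
  refine mul_le_mul_of_nonneg_right ?_ (hg j)
  exact_mod_cast confF_card F ha J j

/-- **The probability that no argument in `[y, X)` works.** -/
theorem none_sys {Ω : Type*} [MeasurableSpace Ω] {μ : Measure Ω} [IsProbabilityMeasure μ] {A : Ω → Set ℕ} {Q : ℕ}
    (hA : IsModel μ (level Q) A) (hQ : 1 ≤ Q) {k : ℕ} (hk : 1 ≤ k) {F : Finset (ℕ × ℕ)} (hF : Sys k F) {D y X : ℕ}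
    (hD : ∀ f ∈ F, f.1 ≤ D) (hyX : y ≤ X) (hy : 1 ≤ y) (hly : 0 < Real.log y) (hqy : qq Q ≤ Real.log y) {θ : ℝ}
    (hθ : (k : ℝ) ^ 2 * (qq Q / Real.log y) ≤ θ) (hθ1 : θ ≤ 1) (hw : (0 : ℝ) ≤ (X : ℝ) - y - Q) :
    μ.real {ω | ∀ n < X, ω ∉ all A (vals F n)} ≤
      Real.exp (-((1 - θ) * (((X : ℝ) - y - Q) * singF Q F / Real.log (D * X) ^ k))) := by
  have hq := qq_pos hQ
  have hFne : F.Nonempty := by
    rw [← card_pos, hF.1]
    omega
  have ha : ∀ f ∈ F, 1 ≤ f.1 := fun f hf => by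
    have := hF.2 f hf
    omega
  obtain ⟨J, hJ⟩ : ∃ J, J = Ico y X := ⟨_, rfl⟩
  have hy0 : (0 : ℝ) < y := by exact_mod_cast hy
  have h1 : μ.real {ω | ∀ n < X, ω ∉ all A (vals F n)} ≤ μ.real (none A J (vals F)) := by
    refine measureReal_mono (fun ω hω j hj => ?_) (measure_ne_top _ _)
    rw [hJ, mem_Ico] at hj
    exact hω j hj.2
  refine h1.trans ((janson' hA J (vals F)).trans ?_)
  refine Real.exp_le_exp.2 ?_
  obtain ⟨M, hM⟩ : ∃ M, M = ∑ j ∈ J, pT (level Q) (vals F j) := ⟨_, rfl⟩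
  have hM0 : 0 ≤ M := by rw [hM]; exact sum_nonneg (fun j _ => pT_nonneg hA _)
  have hcf : ∑ e ∈ cf J (vals F), pT (level Q) (vals F e.1 ∪ vals F e.2) ≤ θ * M := by
    have h2 : ∀ e ∈ cf J (vals F), pT (level Q) (vals F e.1 ∪ vals F e.2) ≤
        pT (level Q) (vals F e.1) * (qq Q / Real.log y) := by
      intro e he
      unfold cf at he
      rw [mem_filter, mem_product, hJ, mem_Ico, mem_Ico] at he
      exact pairF_le hFne ha he.2.1 hly hy0 (by exact_mod_cast he.1.2.1)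
    refine (sum_le_sum h2).trans ?_
    rw [← sum_mul]
    have h3 := cfF_sum_le F ha J (fun n => pT (level Q) (vals F n)) (fun n => pT_nonneg hA _)
    rw [hF.1, ← hM] at h3
    have h4 := mul_le_mul_of_nonneg_right h3 (show 0 ≤ qq Q / Real.log y by positivity)
    refine h4.trans ?_
    have h5 := mul_le_mul_of_nonneg_right hθ hM0
    linarith
  have hMlow : ((X : ℝ) - y - Q) * singF Q F / Real.log (D * X) ^ k ≤ M := by
    have hDX : (y : ℝ) ≤ (D : ℝ) * X := by
      obtain ⟨f, hf⟩ := hFne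
      have e1 : (1 : ℝ) ≤ D := by
        have := ha f hf
        have := hD f hf
        exact_mod_cast (by omega : 1 ≤ D)
      have e2 : (y : ℝ) ≤ X := by exact_mod_cast hyX
      nlinarith
    have hlD : Real.log y ≤ Real.log (D * X) := Real.log_le_log hy0 hDX
    have hlD0 : 0 < Real.log (D * X) := by linarith
    have hratio : qq Q / Real.log (D * X) ≤ 1 := by
      rw [div_le_one hlD0]
      linarith
    have hP : ∀ n ∈ J.filter (GoodF Q F), (qq Q / Real.log (D * X)) ^ k ≤ pT (level Q) (vals F n) := by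
      intro n hn
      rw [hJ, mem_filter, mem_Ico] at hn
      have h2 : (qq Q / Real.log (D * X)) ^ k ≤ (qq Q / Real.log (D * X)) ^ (vals F n).card := by
        refine pow_le_pow_of_le_one (by positivity) hratio ?_
        rw [← hF.1]
        exact card_vals_le F n
      refine h2.trans ?_
      unfold pT
      rw [← prod_const]
      refine prod_le_prod (fun _ _ => by positivity) (fun b hb => ?_)
      obtain ⟨f, hf, rfl⟩ := mem_vals.1 hb
      have hf2 := hF.2 f hf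
      refine le_level (x := (y : ℝ)) hqy hly hy0 ?_ ?_ (hn.2 f hf)
      · push_cast
        have e1 : (1 : ℝ) ≤ f.1 := by exact_mod_cast ha f hf
        have e2 : (0 : ℝ) ≤ f.2 := Nat.cast_nonneg _
        have e3 : (y : ℝ) ≤ n := by exact_mod_cast hn.1.1
        nlinarith
      · have h3 : f.1 * n + f.2 ≤ D * X := by
          calc f.1 * n + f.2 ≤ f.1 * n + f.1 := by omega
            _ = f.1 * (n + 1) := by ring
            _ ≤ D * X := Nat.mul_le_mul (hD f hf) (by omega)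
        exact_mod_cast h3
    have hcnt := (countF_real hQ F y (X - y)).1
    rw [show y + (X - y) = X by omega, Nat.cast_sub hyX, ← hJ] at hcnt
    have h5 : ∑ n ∈ J.filter (GoodF Q F), pT (level Q) (vals F n) ≤ M := by
      rw [hM]
      exact sum_le_sum_of_subset_of_nonneg (filter_subset _ _) (fun n _ _ => pT_nonneg hA _)
    have h6 : ((J.filter (GoodF Q F)).card : ℝ) * (qq Q / Real.log (D * X)) ^ k ≤
        ∑ n ∈ J.filter (GoodF Q F), pT (level Q) (vals F n) := by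
      rw [← nsmul_eq_mul, ← sum_const]
      exact sum_le_sum hP
    refine le_trans ?_ (h6.trans h5)
    have h7 := mul_le_mul_of_nonneg_right hcnt (show 0 ≤ (qq Q / Real.log (D * X)) ^ k by positivity)
    refine le_trans (le_of_eq ?_) h7
    rw [singF_eq, hF.1, div_pow]
    ring
  have h8 := mul_le_mul_of_nonneg_left hMlow (show 0 ≤ 1 - θ by linarith)
  rw [← hM]
  linarith

end Pool.Agent.Q106.LF
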