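import Pool.Agent.Q106.LF.LowA
import Pool.Agent.Q106.UR.Exi

/-!
# Existence of systems with a large least argument
-/

set_option autoImplicit false

namespace Pool.Agent.Q106.LF

open Finset MeasureTheory ProbabilityTheory Filter Pool.Agent.Q120.GM Pool.Agent.Q106.UR
open scoped Topology

variable {k Q Z R X : ℕ} {al be : Fin k → ℕ}

/-- The system with the parameters `t`. -/
def Fam (Q Z R : ℕ) (al be : Fin k → ℕ) (t : Fin k → ℕ) : Finset (ℕ × ℕ) :=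
  univ.image (fun i : Fin k => (av Q Z R al i (t i), bv Q Z R be i (t i)))

theorem mem_Fam {t : Fin k → ℕ} {f : ℕ × ℕ} :
    f ∈ Fam Q Z R al be t ↔ ∃ i, f = (av Q Z R al i (t i), bv Q Z R be i (t i)) := by
  unfold Fam
  rw [mem_image]
  constructor
  · rintro ⟨i, _, h⟩
    exact ⟨i, h.symm⟩
  · rintro ⟨i, h⟩
    exact ⟨i, mem_univ i, h.symm⟩

theorem vals_Fam (t : Fin k → ℕ) (n : ℕ) : vals (Fam Q Z R al be t) n = Uv Q Z R al be t n := by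
  unfold vals Fam Uv
  rw [image_image]
  rfl

theorem sys_Fam (hQ : 1 ≤ Q) (hal : ∀ i, al i < Q) (hbe : ∀ i, be i < Q) (hR : R = X + 2) (hX : 2 ≤ X) (hZ : 1 ≤ Z)
    {t : Fin k → ℕ} (ht : t ∈ GG k (Z * Z)) {D : ℕ} (hD : Q * Z * R ^ (2 * k + 2) ≤ D) :
    Sys k (Fam Q Z R al be t) ∧ ∀ f ∈ Fam Q Z R al be t, f.1 ≤ D := by
  refine ⟨⟨?_, ?_⟩, ?_⟩
  · unfold Fam
    rw [card_image_of_injective]
    · simp
    · intro i i' h
      have h1 : av Q Z R al i (t i) = av Q Z R al i' (t i') := congrArg Prod.fst h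
      have h2 : bv Q Z R be i (t i) = bv Q Z R be i' (t i') := congrArg Prod.snd h
      refine (vv_inj (X := X) hQ hal hbe (R := R) (by omega) (by omega) (mem_GG.1 ht i) (mem_GG.1 ht i') (n := 0) (n' := 0)
        (by omega) (by omega) ?_).1
      unfold vv
      rw [h1, h2]
  · intro f hf
    obtain ⟨i, rfl⟩ := mem_Fam.1 hf
    have hi := i.2
    show 1 ≤ bv Q Z R be i (t i) ∧ bv Q Z R be i (t i) < av Q Z R al i (t i)
    unfold av bv
    obtain ⟨e, he⟩ : ∃ e, 2 * (k - i.1) = e := ⟨_, rfl⟩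
    rw [he]
    have hRe : 1 ≤ R ^ e := Nat.one_le_pow _ _ (by omega)
    constructor
    · have h1 : 1 ≤ Q * (Z * R ^ e + t i % Z) :=
        Nat.mul_pos hQ (Nat.add_pos_left (Nat.mul_pos hZ hRe) _)
      omega
    · have h1 : t i % Z < Z := Nat.mod_lt _ hZ
      have h2 : R ^ e + 1 ≤ R ^ (e + 1) := by
        rw [pow_succ]
        nlinarith
      have h3 : Z * R ^ e + t i % Z + 1 ≤ Z * R ^ (e + 1) + t i / Z := by
        calc Z * R ^ e + t i % Z + 1 ≤ Z * R ^ e + Z := by omega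
          _ = Z * (R ^ e + 1) := by ring
          _ ≤ Z * R ^ (e + 1) := Nat.mul_le_mul_left _ h2
          _ ≤ _ := Nat.le_add_right _ _
      have h4 := Nat.mul_le_mul_left Q h3
      have h5 := hbe i
      calc be i + Q * (Z * R ^ e + t i % Z) < Q + Q * (Z * R ^ e + t i % Z) := by omega
        _ = Q * (Z * R ^ e + t i % Z + 1) := by ring
        _ ≤ Q * (Z * R ^ (e + 1) + t i / Z) := h4
        _ ≤ _ := Nat.le_add_left _ _
  · intro f hf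
    obtain ⟨i, rfl⟩ := mem_Fam.1 hf
    have h1 := (vv_bounds (X := X) (Z := Z) (R := R) hQ hal hbe hR i (mem_GG.1 ht i) (n := 1) (by omega)).2
    unfold vv at h1
    rw [mul_one] at h1
    show av Q Z R al i (t i) ≤ D
    omega

theorem good_Fam {F₀ : Finset (ℕ × ℕ)} {f : Fin k → ℕ × ℕ} (hf : ∀ i, f i ∈ F₀) (hf' : ∀ g ∈ F₀, ∃ i, f i = g)
    (hal : ∀ i, al i = (f i).1 % Q) (hbe : ∀ i, be i = (f i).2 % Q) (t : Fin k → ℕ) (n : ℕ) :
    GoodF Q (Fam Q Z R al be t) n ↔ GoodF Q F₀ n := by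
  have key : ∀ i, (vv Q Z R al be i (t i) n).Coprime Q ↔ ((f i).1 * n + (f i).2).Coprime Q := by
    intro i
    unfold vv av bv
    rw [hal, hbe]
    have h2 : ((f i).1 % Q + Q * (Z * R ^ (2 * (k - i.1) + 1) + t i / Z)) * n +
        ((f i).2 % Q + Q * (Z * R ^ (2 * (k - i.1)) + t i % Z)) =
        ((f i).1 % Q * n + (f i).2 % Q) + Q * ((Z * R ^ (2 * (k - i.1) + 1) + t i / Z) * n +
          (Z * R ^ (2 * (k - i.1)) + t i % Z)) := by ring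
    rw [h2, Nat.coprime_add_mul_left_left]
    have h3 : ((f i).1 % Q * n + (f i).2 % Q) + Q * ((f i).1 / Q * n + (f i).2 / Q) = (f i).1 * n + (f i).2 := by
      conv_rhs => rw [← Nat.div_add_mod (f i).1 Q, ← Nat.div_add_mod (f i).2 Q]
      ring
    rw [← h3, Nat.coprime_add_mul_left_left]
  unfold GoodF
  constructor
  · intro h g hg
    obtain ⟨i, rfl⟩ := hf' g hg
    exact (key i).1 (h _ (mem_Fam.2 ⟨i, rfl⟩))
  · intro h g hg
    obtain ⟨i, rfl⟩ := mem_Fam.1 hg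
    exact (key i).2 (h _ (hf i))

/-- **Systems with a large least argument.** -/
theorem exists_large {Ω : Type*} [MeasurableSpace Ω] {μ : Measure Ω} [IsProbabilityMeasure μ] {A : Ω → Set ℕ} {Q : ℕ}
    (hA : IsModel μ (level Q) A) (hQ : 1 ≤ Q) {k : ℕ} (hk : 1 ≤ k) {F₀ : Finset (ℕ × ℕ)} (hF₀ : F₀.card = k)
    {κ : ℝ} (hκ : 0 < κ) (hsκ : singF Q F₀ * κ < 2 * k) :
    ∀ᵐ ω ∂μ, ∀ᶠ D : ℕ in atTop, ∃ F, Sys k F ∧ (∀ f ∈ F, f.1 ≤ D) ∧ (∀ n, GoodF Q F n ↔ GoodF Q F₀ n) ∧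
      ∀ n : ℕ, (n : ℝ) < κ * Real.log D ^ (k + 1) → ∃ m ∈ vals F n, m ∉ A ω := by
  -- a larger constant
  obtain ⟨κ', hκκ', hsκ'⟩ : ∃ κ', κ < κ' ∧ singF Q F₀ * κ' < 2 * k := by
    have h1 : Tendsto (fun x : ℝ => singF Q F₀ * x) (𝓝 κ) (𝓝 (singF Q F₀ * κ)) :=
      (continuous_const.mul continuous_id).tendsto κ
    have h2 := h1.eventually_lt_const hsκ
    obtain ⟨r, hr, h3⟩ := Metric.eventually_nhds_iff.1 h2
    refine ⟨κ + r / 2, by linarith, h3 ?_⟩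
    rw [Real.dist_eq, add_sub_cancel_left, abs_of_nonneg (by linarith)]
    linarith
  have hκ'0 : 0 < κ' := by linarith
  -- the coefficients
  obtain ⟨f, hfd⟩ : ∃ f : Fin k → ℕ × ℕ, f = fun i => ((F₀.equivFinOfCardEq hF₀).symm i : ℕ × ℕ) := ⟨_, rfl⟩
  have hf : ∀ i, f i ∈ F₀ := by
    intro i
    rw [hfd]
    exact ((F₀.equivFinOfCardEq hF₀).symm i).2
  have hf' : ∀ g ∈ F₀, ∃ i, f i = g := by
    intro g hg
    refine ⟨F₀.equivFinOfCardEq hF₀ ⟨g, hg⟩, ?_⟩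
    rw [hfd]
    simp
  obtain ⟨al, hal⟩ : ∃ al : Fin k → ℕ, al = fun i => (f i).1 % Q := ⟨_, rfl⟩
  obtain ⟨be, hbe⟩ : ∃ be : Fin k → ℕ, be = fun i => (f i).2 % Q := ⟨_, rfl⟩
  have hal1 : ∀ i, al i = (f i).1 % Q := fun i => by rw [hal]
  have hbe1 : ∀ i, be i = (f i).2 % Q := fun i => by rw [hbe]
  have hal' : ∀ i, al i < Q := fun i => by rw [hal1]; exact Nat.mod_lt _ (by omega)
  have hbe' : ∀ i, be i < Q := fun i => by rw [hbe1]; exact Nat.mod_lt _ (by omega)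
  obtain ⟨δ, hδ0, hδ⟩ := ev_fam (μ := μ) (A := A) hA hQ hk hF₀ hf hal1 hbe1 hκ'0 hsκ'
  obtain ⟨E, hE⟩ : ∃ E : ℕ → Set Ω, E = fun D => {ω | ∀ t ∈ GG k (ZZ κ' k Q D * ZZ κ' k Q D),
      ∃ n ∈ (range (XX κ' k D)).filter (GoodF Q F₀), ω ∈ all A (Uv Q (ZZ κ' k Q D) (XX κ' k D + 2) al be t n)} := ⟨_, rfl⟩
  have hbound : ∀ᶠ i : ℕ in atTop, μ.real (E (2 ^ i)) ≤ 2 * ((2 : ℝ) ^ i) ^ (-δ) := by
    filter_upwards [Pool.Agent.Q120.GM.two_pow_tendsto.eventually hδ] with i hi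
    rw [hE]
    refine hi.trans (le_of_eq ?_)
    have h7 : (0 : ℝ) < (2 : ℝ) ^ i := by positivity
    rw [Real.rpow_def_of_pos h7]
    push_cast
    congr 2
    ring
  have hsz := Pool.Agent.Q120.GM.two_pow_tendsto.eventually (ev_sizes κ' k Q hQ hκ'0 (η := 1 / 2) (by norm_num) (le_refl _) 0)
  have hsc := Pool.Agent.Q120.GM.two_pow_tendsto.eventually (scale k hκ hκκ')
  filter_upwards [bc ((Pool.Agent.Q120.GM.summable_two_pow hδ0).mul_left 2) hbound, ae_coprime hA] with ω hω hco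
  obtain ⟨I, hI⟩ := eventually_atTop.1 (hω.and (hsz.and hsc))
  filter_upwards [eventually_ge_atTop (2 ^ I)] with D hD
  obtain ⟨i, hi⟩ : ∃ i, i = Nat.log 2 D := ⟨_, rfl⟩
  have hDpos : 1 ≤ D := le_trans Nat.one_le_two_pow hD
  have h3 : 2 ^ i ≤ D := by rw [hi]; exact Nat.pow_log_le_self 2 (by omega)
  have h4 : D < 2 ^ (i + 1) := by rw [hi]; exact Nat.lt_pow_succ_log_self (by norm_num) D
  have h5 : I ≤ i := by
    rw [hi]
    exact (Nat.le_log_iff_pow_le (by norm_num) (by omega)).2 hD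
  obtain ⟨g1, ⟨_, _, g3, g4, _, _⟩, g6⟩ := hI i h5
  obtain ⟨Z, hZ⟩ : ∃ Z, Z = ZZ κ' k Q (2 ^ i) := ⟨_, rfl⟩
  obtain ⟨X, hX⟩ : ∃ X, X = XX κ' k (2 ^ i) := ⟨_, rfl⟩
  rw [hE] at g1
  rw [← hZ] at g4
  rw [← hX] at g3
  have g1' : ∃ t ∈ GG k (Z * Z), ∀ n ∈ (range X).filter (GoodF Q F₀), ω ∉ all A (Uv Q Z (X + 2) al be t n) := by
    by_contra hcon
    push Not at hcon
    apply g1
    show ∀ t ∈ GG k (ZZ κ' k Q (2 ^ i) * ZZ κ' k Q (2 ^ i)), ∃ n ∈ (range (XX κ' k (2 ^ i))).filter (GoodF Q F₀),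
      ω ∈ all A (Uv Q (ZZ κ' k Q (2 ^ i)) (XX κ' k (2 ^ i) + 2) al be t n)
    rw [← hZ, ← hX]
    exact hcon
  obtain ⟨t, ht, hno⟩ := g1'
  have hZ1 : 1 ≤ Z := by
    have : (0 : ℝ) < Z := lt_of_lt_of_le (Real.exp_pos _) g4
    have : 0 < Z := by exact_mod_cast this
    exact this
  have hZD : Q * Z * (X + 2) ^ (2 * k + 2) ≤ 2 ^ i := by
    rw [hZ, hX]
    unfold ZZ
    calc Q * (2 ^ i / (Q * (XX κ' k (2 ^ i) + 2) ^ (2 * k + 2))) * (XX κ' k (2 ^ i) + 2) ^ (2 * k + 2) =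
          2 ^ i / (Q * (XX κ' k (2 ^ i) + 2) ^ (2 * k + 2)) * (Q * (XX κ' k (2 ^ i) + 2) ^ (2 * k + 2)) := by ring
      _ ≤ 2 ^ i := Nat.div_mul_le_self _ _
  obtain ⟨hs1, hs2⟩ := sys_Fam (X := X) (R := X + 2) hQ hal' hbe' rfl g3 hZ1 ht hZD
  refine ⟨Fam Q Z (X + 2) al be t, hs1, fun f hf => (hs2 f hf).trans h3, fun n => good_Fam hf hf' hal1 hbe1 t n, ?_⟩
  intro n hn
  have hlogle : Real.log D ≤ Real.log (2 * ((2 ^ i : ℕ) : ℝ)) := by
    refine Real.log_le_log (by exact_mod_cast hDpos) ?_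
    have : (D : ℝ) < ((2 ^ (i + 1) : ℕ) : ℝ) := by exact_mod_cast h4
    rw [pow_succ] at this
    push_cast at this ⊢
    linarith
  have hnX : n < X := by
    have e1 := mul_le_mul_of_nonneg_left (pow_le_pow_left₀ (Real.log_natCast_nonneg D) hlogle (k + 1)) hκ.le
    have e2 : κ' * Real.log ((2 ^ i : ℕ) : ℝ) ^ (k + 1) ≤ X := by
      rw [hX]
      exact Nat.le_ceil _
    have e3 : (n : ℝ) < X := by linarith
    exact_mod_cast e3
  by_contra hcon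
  push Not at hcon
  have hgood : GoodF Q (Fam Q Z (X + 2) al be t) n := by
    intro f hf
    exact hco _ (hcon _ (mem_vals.2 ⟨f, hf, rfl⟩))
  have hgood' := (good_Fam hf hf' hal1 hbe1 t n).1 hgood
  refine hno n (mem_filter.2 ⟨mem_range.2 hnX, hgood'⟩) ?_
  intro m hm
  rw [← vals_Fam] at hm
  exact hcon m hm

end Pool.Agent.Q106.LF
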