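import Pool.Agent.Q106.LF.Exi

/-!
# All parameters at once
-/

set_option autoImplicit false

namespace Pool.Agent.Q106.LF

open Finset MeasureTheory ProbabilityTheory Filter Pool.Agent.Q120.GM Pool.Agent.Q106.UR
open scoped Topology

variable {Ω : Type*} [MeasurableSpace Ω] {μ : Measure Ω} [IsProbabilityMeasure μ] {A : Ω → Set ℕ}

theorem all_least {Q : ℕ} (hA : IsModel μ (level Q) A) (hQ : 1 ≤ Q) :
    ∀ᵐ ω ∂μ, ∀ k : ℕ, 1 ≤ k → ∀ s κ : ℝ, 0 < s → 2 * k < s * κ → ∀ᶠ D : ℕ in atTop, ∀ F, Sys k F → (∀ f ∈ F, f.1 ≤ D) →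
      s ≤ singF Q F → ∃ n : ℕ, (n : ℝ) < κ * Real.log D ^ (k + 1) ∧ ∀ m ∈ vals F n, m ∈ A ω := by
  have h : ∀ᵐ ω ∂μ, ∀ k : ℕ, ∀ s κ : ℚ, 1 ≤ k → 0 < (s : ℝ) → 2 * k < (s : ℝ) * κ → ∀ᶠ D : ℕ in atTop, ∀ F, Sys k F →
      (∀ f ∈ F, f.1 ≤ D) → (s : ℝ) ≤ singF Q F → ∃ n : ℕ, (n : ℝ) < κ * Real.log D ^ (k + 1) ∧ ∀ m ∈ vals F n, m ∈ A ω := by
    rw [ae_all_iff]
    intro k
    rw [ae_all_iff]
    intro s
    rw [ae_all_iff]
    intro κ
    by_cases hk : 1 ≤ k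
    · by_cases hs : 0 < (s : ℝ)
      · by_cases hκ : 2 * k < (s : ℝ) * κ
        · filter_upwards [least_up (μ := μ) (A := A) hA hQ hk hs hκ] with ω hω _ _ _
          exact hω
        · exact Eventually.of_forall (fun ω _ _ h => absurd h hκ)
      · exact Eventually.of_forall (fun ω _ h => absurd h hs)
    · exact Eventually.of_forall (fun ω h => absurd h hk)
  filter_upwards [h] with ω hω k hk s κ hs hκ
  have hk0 : (0 : ℝ) < k := by exact_mod_cast hk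
  have hκ0 : 0 < κ := by
    have h1 : 0 < s * κ := lt_of_le_of_lt (by positivity) hκ
    exact (pos_iff_pos_of_mul_pos h1).1 hs
  obtain ⟨s', h1, h2⟩ := exists_rat_btwn (show 2 * k / κ < s by rw [div_lt_iff₀ hκ0]; exact hκ)
  have hs'0 : (0 : ℝ) < s' := lt_of_le_of_lt (by positivity) h1
  rw [div_lt_iff₀ hκ0] at h1
  obtain ⟨κ', h3, h4⟩ := exists_rat_btwn (show 2 * k / (s' : ℝ) < κ by rw [div_lt_iff₀ hs'0]; linarith)
  rw [div_lt_iff₀ hs'0] at h3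
  filter_upwards [hω k s' κ' hk hs'0 (by linarith)] with D hD F hF hFD hsF
  obtain ⟨n, hn1, hn2⟩ := hD F hF hFD (h2.le.trans hsF)
  refine ⟨n, hn1.trans_le ?_, hn2⟩
  exact mul_le_mul_of_nonneg_right h4.le (by
    have := Real.log_natCast_nonneg D
    positivity)

theorem all_large {Q : ℕ} (hA : IsModel μ (level Q) A) (hQ : 1 ≤ Q) :
    ∀ᵐ ω ∂μ, ∀ k : ℕ, 1 ≤ k → ∀ (F₀ : Finset (ℕ × ℕ)) (κ : ℝ), F₀.card = k → 0 < κ → singF Q F₀ * κ < 2 * k →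
      ∀ᶠ D : ℕ in atTop, ∃ F, Sys k F ∧ (∀ f ∈ F, f.1 ≤ D) ∧ (∀ n, GoodF Q F n ↔ GoodF Q F₀ n) ∧
      ∀ n : ℕ, (n : ℝ) < κ * Real.log D ^ (k + 1) → ∃ m ∈ vals F n, m ∉ A ω := by
  have h : ∀ᵐ ω ∂μ, ∀ k : ℕ, ∀ (F₀ : Finset (ℕ × ℕ)) (κ : ℚ), 1 ≤ k → F₀.card = k → 0 < (κ : ℝ) →
      singF Q F₀ * κ < 2 * k → ∀ᶠ D : ℕ in atTop, ∃ F, Sys k F ∧ (∀ f ∈ F, f.1 ≤ D) ∧
      (∀ n, GoodF Q F n ↔ GoodF Q F₀ n) ∧
      ∀ n : ℕ, (n : ℝ) < κ * Real.log D ^ (k + 1) → ∃ m ∈ vals F n, m ∉ A ω := by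
    rw [ae_all_iff]
    intro k
    rw [ae_all_iff]
    intro F₀
    rw [ae_all_iff]
    intro κ
    by_cases hk : 1 ≤ k
    · by_cases hF : F₀.card = k
      · by_cases hκ : 0 < (κ : ℝ)
        · by_cases hs : singF Q F₀ * κ < 2 * k
          · filter_upwards [exists_large (μ := μ) (A := A) hA hQ hk hF hκ hs] with ω hω _ _ _ _
            exact hω
          · exact Eventually.of_forall (fun ω _ _ _ h => absurd h hs)
        · exact Eventually.of_forall (fun ω _ _ h => absurd h hκ)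
      · exact Eventually.of_forall (fun ω _ h => absurd h hF)
    · exact Eventually.of_forall (fun ω h => absurd h hk)
  filter_upwards [h] with ω hω k hk F₀ κ hF hκ hs
  -- a larger rational constant
  obtain ⟨κ', h1, h2⟩ : ∃ κ' : ℚ, κ < κ' ∧ singF Q F₀ * κ' < 2 * k := by
    have h1 : Tendsto (fun x : ℝ => singF Q F₀ * x) (𝓝 κ) (𝓝 (singF Q F₀ * κ)) :=
      (continuous_const.mul continuous_id).tendsto κ
    have h2 := h1.eventually_lt_const hs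
    obtain ⟨r, hr, h3⟩ := Metric.eventually_nhds_iff.1 h2
    obtain ⟨κ', h4, h5⟩ := exists_rat_btwn (show κ < κ + r by linarith)
    refine ⟨κ', h4, h3 ?_⟩
    rw [Real.dist_eq, abs_of_nonneg (by linarith)]
    linarith
  filter_upwards [hω k F₀ κ' hk hF (by linarith) h2] with D hD
  obtain ⟨F, e1, e2, e3, e4⟩ := hD
  refine ⟨F, e1, e2, e3, fun n hn => e4 n (hn.trans_le ?_)⟩
  exact mul_le_mul_of_nonneg_right h1.le (by
    have := Real.log_natCast_nonneg D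
    positivity)

/-- Admissible systems have a good argument. -/
theorem exists_good {Q : ℕ} (hQ : 1 ≤ Q) {F : Finset (ℕ × ℕ)}
    (hF : ∀ p : ℕ, p.Prime → p ∣ Q → ∃ n, ∀ f ∈ F, ¬ p ∣ f.1 * n + f.2) : ∃ n, GoodF Q F n := by
  choose! m hm using hF
  have hpr : ∀ p ∈ Q.primeFactors, p.Prime ∧ p ∣ Q := fun p hp => ⟨Nat.prime_of_mem_primeFactors hp, Nat.dvd_of_mem_primeFactors hp⟩
  obtain ⟨n, hn⟩ := Nat.chineseRemainderOfFinset m (fun p => p) Q.primeFactors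
    (fun p hp => (hpr p hp).1.ne_zero) (by
      intro p hp q hq hpq
      exact (Nat.coprime_primes (hpr p hp).1 (hpr q hq).1).2 hpq)
  refine ⟨n, fun f hf => ?_⟩
  rw [Nat.coprime_iff_gcd_eq_one]
  by_contra hcon
  obtain ⟨p, hp, hpd⟩ := Nat.exists_prime_and_dvd hcon
  have h1 : p ∣ Q := hpd.trans (Nat.gcd_dvd_right _ _)
  have h2 : p ∣ f.1 * n + f.2 := hpd.trans (Nat.gcd_dvd_left _ _)
  have h3 : p ∈ Q.primeFactors := Nat.mem_primeFactors.2 ⟨hp, h1, by omega⟩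
  have h4 := hn p h3
  refine hm p hp h1 f hf ?_
  have h5 : f.1 * n + f.2 ≡ f.1 * m p + f.2 [MOD p] := (h4.mul_left f.1).add_right f.2
  exact (h5.dvd_iff (dvd_refl p)).1 h2

theorem singF_pos {Q : ℕ} (hQ : 1 ≤ Q) {F : Finset (ℕ × ℕ)} (h : ∃ n, GoodF Q F n) : 0 < singF Q F := by
  obtain ⟨n, hn⟩ := h
  have hq := qq_pos hQ
  have hQ0 : (0 : ℝ) < Q := by exact_mod_cast hQ
  rw [singF_eq]
  have h1 : 0 < ccF Q F := by
    unfold ccF
    rw [card_pos]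
    refine ⟨n % Q, mem_filter.2 ⟨mem_range.2 (Nat.mod_lt _ hQ), ?_⟩⟩
    have h2 : GoodF Q F (n % Q) = GoodF Q F n := (goodF_periodic Q F).map_mod_nat n
    rw [h2]
    exact hn
  have h2 : (0 : ℝ) < ccF Q F := by exact_mod_cast h1
  positivity

theorem singF_congr {Q : ℕ} {F F' : Finset (ℕ × ℕ)} (hc : F.card = F'.card) (h : ∀ n, GoodF Q F n ↔ GoodF Q F' n) :
    singF Q F = singF Q F' := by
  have h1 : ccF Q F = ccF Q F' := by
    unfold ccF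
    congr 1
    exact filter_congr (fun n _ => h n)
  rw [singF_eq, singF_eq, h1, hc]

end Pool.Agent.Q106.LF
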