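import Pool.Agent.Q106.LF.Basic
import Pool.Agent.Q106.UR.Win

/-!
# Families of systems with few common values
-/

set_option autoImplicit false

namespace Pool.Agent.Q106.LF

open Finset MeasureTheory ProbabilityTheory Filter Pool.Agent.Q120.GM Pool.Agent.Q106.UR
open scoped Topology

/-- The leading coefficients. -/
def av {k : ℕ} (Q Z R : ℕ) (al : Fin k → ℕ) (i : Fin k) (t : ℕ) : ℕ :=
  al i + Q * (Z * R ^ (2 * (k - i.1) + 1) + t / Z)

/-- The constant coefficients. -/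
def bv {k : ℕ} (Q Z R : ℕ) (be : Fin k → ℕ) (i : Fin k) (t : ℕ) : ℕ :=
  be i + Q * (Z * R ^ (2 * (k - i.1)) + t % Z)

/-- The values. -/
def vv {k : ℕ} (Q Z R : ℕ) (al be : Fin k → ℕ) (i : Fin k) (t n : ℕ) : ℕ :=
  av Q Z R al i t * n + bv Q Z R be i t

variable {k Q Z R X : ℕ} {al be : Fin k → ℕ}

theorem vv_eq (i : Fin k) (t n : ℕ) : vv Q Z R al be i t n =
    Q * Z * R * (R ^ (2 * (k - i.1)) * n + R ^ (2 * (k - i.1) - 1)) + (al i * n + be i + Q * (t / Z * n + t % Z)) := by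
  have hk : 1 ≤ 2 * (k - i.1) := by
    have := i.2
    omega
  obtain ⟨e, he⟩ : ∃ e, 2 * (k - i.1) = e + 1 := ⟨2 * (k - i.1) - 1, by omega⟩
  unfold vv av bv
  rw [he, Nat.add_sub_cancel, pow_succ, pow_succ]
  ring

theorem rem_lt (hQ : 1 ≤ Q) (hal : ∀ i, al i < Q) (hbe : ∀ i, be i < Q) (hXR : X ≤ R) {i : Fin k} {t n : ℕ}
    (ht : t < Z * Z) (hn : n < X) : al i * n + be i + Q * (t / Z * n + t % Z) < Q * Z * R := by
  have hZ : 0 < Z := by
    rcases Nat.eq_zero_or_pos Z with h | h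
    · rw [h] at ht
      omega
    · exact h
  have h1 : t / Z < Z := (Nat.div_lt_iff_lt_mul hZ).2 ht
  have h2 : t % Z < Z := Nat.mod_lt _ hZ
  have h3 : al i * n + be i ≤ (Q - 1) * (n + 1) := by
    have e1 : al i * n ≤ (Q - 1) * n := Nat.mul_le_mul_right _ (by have := hal i; omega)
    have e2 : be i ≤ Q - 1 := by have := hbe i; omega
    calc al i * n + be i ≤ (Q - 1) * n + (Q - 1) := by omega
      _ = (Q - 1) * (n + 1) := by ring
  have h4 : t / Z * n + t % Z ≤ (Z - 1) * (n + 1) := by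
    have e1 : t / Z * n ≤ (Z - 1) * n := Nat.mul_le_mul_right _ (by omega)
    calc t / Z * n + t % Z ≤ (Z - 1) * n + (Z - 1) := by omega
      _ = (Z - 1) * (n + 1) := by ring
  have h5 : (Q - 1) * (n + 1) + Q * ((Z - 1) * (n + 1)) < Q * Z * (n + 1) := by
    obtain ⟨q, rfl⟩ : ∃ q, Q = q + 1 := ⟨Q - 1, by omega⟩
    obtain ⟨z, rfl⟩ : ∃ z, Z = z + 1 := ⟨Z - 1, by omega⟩
    rw [Nat.add_sub_cancel, Nat.add_sub_cancel]
    have e1 : (q + 1) * (z + 1) * (n + 1) = q * (n + 1) + (q + 1) * (z * (n + 1)) + (n + 1) := by ring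
    rw [e1]
    omega
  calc al i * n + be i + Q * (t / Z * n + t % Z) ≤ (Q - 1) * (n + 1) + Q * ((Z - 1) * (n + 1)) :=
        Nat.add_le_add h3 (Nat.mul_le_mul_left _ h4)
    _ < Q * Z * (n + 1) := h5
    _ ≤ Q * Z * R := Nat.mul_le_mul_left _ (by omega)

theorem pow_unique (hR : 2 ≤ R) {e e' n n' : ℕ} (h : R ^ e * (R * n + 1) = R ^ e' * (R * n' + 1)) : e = e' ∧ n = n' := by
  have key : ∀ e e' n n' : ℕ, e < e' → R ^ e * (R * n + 1) ≠ R ^ e' * (R * n' + 1) := by
    intro e e' n n' hlt h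
    obtain ⟨d, rfl⟩ : ∃ d, e' = e + (d + 1) := ⟨e' - e - 1, by omega⟩
    rw [pow_add, mul_assoc] at h
    have h1 : R * n + 1 = R ^ (d + 1) * (R * n' + 1) := Nat.eq_of_mul_eq_mul_left (pow_pos (by omega) e) h
    have h2 : R ∣ R * n + 1 := by
      rw [h1, pow_succ]
      exact ⟨R ^ d * (R * n' + 1), by ring⟩
    have h3 : R ∣ 1 := (Nat.dvd_add_right (Dvd.intro n rfl)).1 h2
    have h4 := Nat.le_of_dvd one_pos h3
    omega
  rcases lt_trichotomy e e' with h1 | h1 | h1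
  · exact absurd h (key e e' n n' h1)
  · subst h1
    refine ⟨rfl, ?_⟩
    have h2 := Nat.eq_of_mul_eq_mul_left (pow_pos (show 0 < R by omega) e) h
    have h3 : R * n = R * n' := by omega
    exact Nat.eq_of_mul_eq_mul_left (by omega) h3
  · exact absurd h.symm (key e' e n' n h1)

/-- Equal values. -/
theorem vv_inj (hQ : 1 ≤ Q) (hal : ∀ i, al i < Q) (hbe : ∀ i, be i < Q) (hXR : X ≤ R) (hR : 2 ≤ R) {i i' : Fin k}
    {t t' n n' : ℕ} (ht : t < Z * Z) (ht' : t' < Z * Z) (hn : n < X) (hn' : n' < X)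
    (h : vv Q Z R al be i t n = vv Q Z R al be i' t' n') :
    i = i' ∧ n = n' ∧ t / Z * n + t % Z = t' / Z * n + t' % Z := by
  rw [vv_eq, vv_eq] at h
  have h1 := rem_lt (X := X) hQ hal hbe hXR (i := i) ht hn
  have h2 := rem_lt (X := X) hQ hal hbe hXR (i := i') ht' hn'
  obtain ⟨w, hw⟩ : ∃ w, w = Q * Z * R := ⟨_, rfl⟩
  rw [← hw] at h h1 h2
  have hw0 : 0 < w := by omega
  have h3 : R ^ (2 * (k - i.1)) * n + R ^ (2 * (k - i.1) - 1) = R ^ (2 * (k - i'.1)) * n' + R ^ (2 * (k - i'.1) - 1) := by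
    have e1 : (w * (R ^ (2 * (k - i.1)) * n + R ^ (2 * (k - i.1) - 1)) + (al i * n + be i + Q * (t / Z * n + t % Z))) / w =
        R ^ (2 * (k - i.1)) * n + R ^ (2 * (k - i.1) - 1) := by
      rw [Nat.mul_add_div hw0, Nat.div_eq_of_lt h1, add_zero]
    have e2 : (w * (R ^ (2 * (k - i'.1)) * n' + R ^ (2 * (k - i'.1) - 1)) +
        (al i' * n' + be i' + Q * (t' / Z * n' + t' % Z))) / w =
        R ^ (2 * (k - i'.1)) * n' + R ^ (2 * (k - i'.1) - 1) := by
      rw [Nat.mul_add_div hw0, Nat.div_eq_of_lt h2, add_zero]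
    rw [← e1, ← e2, h]
  have hi := i.2
  have hi' := i'.2
  obtain ⟨e, he⟩ : ∃ e, 2 * (k - i.1) = e + 1 := ⟨2 * (k - i.1) - 1, by omega⟩
  obtain ⟨e', he'⟩ : ∃ e', 2 * (k - i'.1) = e' + 1 := ⟨2 * (k - i'.1) - 1, by omega⟩
  have h4 : R ^ e * (R * n + 1) = R ^ e' * (R * n' + 1) := by
    rw [he, he', Nat.add_sub_cancel, Nat.add_sub_cancel, pow_succ, pow_succ] at h3
    calc R ^ e * (R * n + 1) = R ^ e * R * n + R ^ e := by ring
      _ = R ^ e' * R * n' + R ^ e' := h3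
      _ = R ^ e' * (R * n' + 1) := by ring
  obtain ⟨h5, h6⟩ := pow_unique hR h4
  have h7 : i = i' := Fin.ext (by omega)
  subst h7
  subst h6
  refine ⟨rfl, rfl, ?_⟩
  rw [Nat.add_left_cancel_iff, Nat.add_left_cancel_iff] at h
  exact Nat.eq_of_mul_eq_mul_left hQ h

/-- The values of a system of the family. -/
def Uv (Q Z R : ℕ) (al be : Fin k → ℕ) (t : Fin k → ℕ) (n : ℕ) : Finset ℕ :=
  univ.image (fun i : Fin k => vv Q Z R al be i (t i) n)

theorem mem_Uv {t : Fin k → ℕ} {n b : ℕ} : b ∈ Uv Q Z R al be t n ↔ ∃ i, b = vv Q Z R al be i (t i) n := by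
  unfold Uv
  rw [mem_image]
  constructor
  · rintro ⟨i, _, h⟩
    exact ⟨i, h.symm⟩
  · rintro ⟨i, h⟩
    exact ⟨i, mem_univ i, h.symm⟩

/-- The pairs of systems with a common value. -/
def shv (k Z X : ℕ) : Finset ((Fin k → ℕ) × (Fin k → ℕ)) :=
  (GG k (Z * Z) ×ˢ GG k (Z * Z)).filter (fun e => ∃ i : Fin k, ∃ n ∈ range X, e.1 i / Z * n + e.1 i % Z = e.2 i / Z * n + e.2 i % Z)

theorem line_card (Z n v : ℕ) : ((range (Z * Z)).filter (fun s => v = s / Z * n + s % Z)).card ≤ Z := by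
  rcases Nat.eq_zero_or_pos Z with h0 | hZ
  · subst h0
    simp
  refine le_trans (card_le_card_of_injOn (t := range Z) (fun s => s / Z) ?_ ?_) (by simp)
  · intro s hs
    rw [mem_coe, mem_filter, mem_range] at hs
    rw [mem_coe, mem_range]
    exact (Nat.div_lt_iff_lt_mul hZ).2 hs.1
  · intro s hs s' hs' h
    rw [mem_coe, mem_filter] at hs hs'
    have h' : s / Z = s' / Z := h
    have h1 : s % Z = s' % Z := by
      have e1 := hs.2
      have e2 := hs'.2
      rw [← h'] at e2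
      omega
    rw [← Nat.div_add_mod s Z, ← Nat.div_add_mod s' Z, h', h1]

theorem card_shv (hk : 1 ≤ k) : ((shv k Z X).card : ℝ) ≤ k * X * (Z : ℝ) ^ (4 * k - 1) := by
  have h1 : shv k Z X ⊆ (GG k (Z * Z)).biUnion (fun t => (univ : Finset (Fin k)).biUnion (fun i =>
      (range X).biUnion (fun n => ((GG k (Z * Z)).filter (fun t' => t i / Z * n + t i % Z = t' i / Z * n + t' i % Z)).image
        (fun t' => (t, t'))))) := by
    intro e he
    unfold shv at he
    rw [mem_filter, mem_product] at he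
    obtain ⟨⟨he1, he2⟩, i, n, hn, h⟩ := he
    rw [mem_biUnion]
    refine ⟨e.1, he1, ?_⟩
    rw [mem_biUnion]
    refine ⟨i, mem_univ i, ?_⟩
    rw [mem_biUnion]
    exact ⟨n, hn, mem_image.2 ⟨e.2, mem_filter.2 ⟨he2, h⟩, rfl⟩⟩
  have h2 : ∀ (i : Fin k) (n v : ℕ), ((GG k (Z * Z)).filter (fun t' => v = t' i / Z * n + t' i % Z)).card ≤
      Z * (Z * Z) ^ (k - 1) := by
    intro i n v
    have h3 : (GG k (Z * Z)).filter (fun t' => v = t' i / Z * n + t' i % Z) ⊆
        ((range (Z * Z)).filter (fun s => v = s / Z * n + s % Z)).biUnion (fun s => (GG k (Z * Z)).filter (fun t' => t' i = s)) := by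
      intro t' ht'
      rw [mem_filter] at ht'
      rw [mem_biUnion]
      refine ⟨t' i, mem_filter.2 ⟨mem_range.2 (mem_GG.1 ht'.1 i), ht'.2⟩, mem_filter.2 ⟨ht'.1, rfl⟩⟩
    refine (card_le_card h3).trans ((card_biUnion_le_card_mul _ _ ((Z * Z) ^ (k - 1)) (fun s hs => ?_)).trans ?_)
    · rw [mem_filter] at hs
      have h4 := Fintype.card_filter_piFinset_const_eq_of_mem (ι := Fin k) (range (Z * Z)) i (x := s) hs.1
      unfold GG
      rw [h4]
      simp
    · exact Nat.mul_le_mul_right _ (line_card Z n v)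
  have h3 : (shv k Z X).card ≤ (Z * Z) ^ k * (k * (X * (Z * (Z * Z) ^ (k - 1)))) := by
    refine (card_le_card h1).trans ((card_biUnion_le_card_mul _ _ (k * (X * (Z * (Z * Z) ^ (k - 1)))) (fun t _ => ?_)).trans
      (le_of_eq ?_))
    · refine (card_biUnion_le_card_mul _ _ (X * (Z * (Z * Z) ^ (k - 1))) (fun i _ => ?_)).trans (le_of_eq (by simp))
      refine (card_biUnion_le_card_mul _ _ (Z * (Z * Z) ^ (k - 1)) (fun n _ => ?_)).trans (le_of_eq (by simp))
      exact card_image_le.trans (h2 i n _)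
    · rw [card_GG]
  have h4 : ((shv k Z X).card : ℝ) ≤ ((Z : ℝ) * Z) ^ k * (k * (X * (Z * ((Z : ℝ) * Z) ^ (k - 1)))) := by exact_mod_cast h3
  refine h4.trans (le_of_eq ?_)
  have h5 : ((Z : ℝ) * Z) ^ k * (k * (X * (Z * ((Z : ℝ) * Z) ^ (k - 1)))) =
      k * X * (((Z : ℝ) * Z) ^ k * (Z * ((Z : ℝ) * Z) ^ (k - 1))) := by ring
  rw [h5]
  congr 1
  rw [← sq, ← pow_mul, ← pow_mul, ← pow_succ', ← pow_add]
  congr 1
  omega

/-- **The second moment bound for the family.** -/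
theorem fam_sys {Ω : Type*} [MeasurableSpace Ω] {μ : Measure Ω} [IsProbabilityMeasure μ] {A : Ω → Set ℕ}
    {p : ℕ → ℝ} (hA : IsModel μ p A) (hQ : 1 ≤ Q) (hk : 1 ≤ k) (hal : ∀ i, al i < Q) (hbe : ∀ i, be i < Q) (hXR : X ≤ R)
    (hR : 2 ≤ R) (hZ : 1 ≤ Z) {T : Finset ℕ} (hT : ∀ n ∈ T, n < X) {q q' g : ℝ} (hq0 : 0 ≤ q') (hq1 : q' < 1) (hq : 0 < q)
    (hp : ∀ n ∈ T, ∀ i : Fin k, ∀ t < Z * Z, q ≤ p (vv Q Z R al be i t n) ∧ p (vv Q Z R al be i t n) ≤ q')
    (hg : -(2 * q ^ k) + q' ^ (k + 1) ≤ g) (hg0 : g ≤ 0) {lo b : ℝ} (hlo : lo = (1 - q' ^ k) ^ T.card)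
    (hb : b = Real.exp (((T.card : ℝ) - 1) * g)) :
    μ.real {ω | ∀ t ∈ GG k (Z * Z), ∃ n ∈ T, ω ∈ all A (Uv Q Z R al be t n)} ≤
      1 / ((Z : ℝ) ^ (2 * k) * lo) + k * X * (Z : ℝ) ^ (4 * k - 1) * b / ((Z : ℝ) ^ (2 * k) * lo) ^ 2 := by
  have hZ0 : (0 : ℝ) < Z := by exact_mod_cast hZ
  have hq'k : q' ^ k < 1 := pow_lt_one₀ hq0 hq1 (by omega)
  have hlo0 : 0 < lo := by
    rw [hlo]
    have : 0 < 1 - q' ^ k := by linarith
    positivity
  have hb0 : 0 ≤ b := by rw [hb]; positivity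
  have hcardU : ∀ n ∈ T, ∀ t ∈ GG k (Z * Z), (Uv Q Z R al be t n).card = k := by
    intro n hn t ht
    unfold Uv
    rw [card_image_of_injective]
    · simp
    · intro i i' h
      exact (vv_inj hQ hal hbe hXR hR (mem_GG.1 ht i) (mem_GG.1 ht i') (hT n hn) (hT n hn) h).1
  have hbU : ∀ n ∈ T, ∀ t ∈ GG k (Z * Z), ∀ b ∈ Uv Q Z R al be t n, q ≤ p b ∧ p b ≤ q' := by
    intro n hn t ht b hb
    obtain ⟨i, rfl⟩ := mem_Uv.1 hb
    exact hp n hn i (t i) (mem_GG.1 ht i)
  have hpU : ∀ n ∈ T, ∀ t ∈ GG k (Z * Z), q ^ k ≤ pT p (Uv Q Z R al be t n) ∧ pT p (Uv Q Z R al be t n) ≤ q' ^ k := by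
    intro n hn t ht
    unfold pT
    have e1 : ∏ _b ∈ Uv Q Z R al be t n, q = q ^ k := by rw [prod_const, hcardU n hn t ht]
    have e2 : ∏ _b ∈ Uv Q Z R al be t n, q' = q' ^ k := by rw [prod_const, hcardU n hn t ht]
    rw [← e1, ← e2]
    exact ⟨prod_le_prod (fun _ _ => hq.le) (fun b hb' => (hbU n hn t ht b hb').1),
      prod_le_prod (fun b _ => p_nonneg hA b) (fun b hb' => (hbU n hn t ht b hb').2)⟩
  have hdis : ∀ n ∈ T, ∀ n' ∈ T, ∀ t ∈ GG k (Z * Z), ∀ t' ∈ GG k (Z * Z),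
      (n ≠ n' ∨ ∀ i, t i / Z * n + t i % Z ≠ t' i / Z * n + t' i % Z) →
      Disjoint (Uv Q Z R al be t n) (Uv Q Z R al be t' n') := by
    intro n hn n' hn' t ht t' ht' h
    rw [Finset.disjoint_left]
    intro b hb hb'
    obtain ⟨i, e⟩ := mem_Uv.1 hb
    obtain ⟨i', e'⟩ := mem_Uv.1 hb'
    obtain ⟨h1, h2, h3⟩ := vv_inj hQ hal hbe hXR hR (mem_GG.1 ht i) (mem_GG.1 ht' i') (hT n hn) (hT n' hn')
      (e.symm.trans e')
    subst h1
    rcases h with h | h
    · exact h h2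
    · exact h i h3
  have hGne : (GG k (Z * Z)).Nonempty := ⟨fun _ => 0, mem_GG.2 (fun _ => Nat.mul_pos hZ hZ)⟩
  have hcardG : ((GG k (Z * Z)).card : ℝ) = (Z : ℝ) ^ (2 * k) := by
    rw [card_GG]
    push_cast
    rw [← sq, ← pow_mul]
  have hsub : {ω | ∀ t ∈ GG k (Z * Z), ∃ n ∈ T, ω ∈ all A (Uv Q Z R al be t n)} ⊆
      {ω | ∀ t ∈ GG k (Z * Z), ω ∉ {ω | nm A T (Uv Q Z R al be t) ω = ((0 : ℕ) : ℝ)}} := by
    intro ω hω t ht h
    obtain ⟨n, hn, h1⟩ := hω t ht
    have h2 : nm A T (Uv Q Z R al be t) ω = ((0 : ℕ) : ℝ) := h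
    rw [nm_card] at h2
    have h3 : (oc A T (Uv Q Z R al be t) ω).card = 0 := by exact_mod_cast h2
    rw [card_eq_zero] at h3
    have h4 : n ∈ oc A T (Uv Q Z R al be t) ω := mem_oc.2 ⟨hn, h1⟩
    rw [h3] at h4
    exact absurd h4 (notMem_empty n)
  refine (measureReal_mono hsub (measure_ne_top _ _)).trans ?_
  have h := second (μ := μ) (GG k (Z * Z)) (fun t => {ω | nm A T (Uv Q Z R al be t) ω = ((0 : ℕ) : ℝ)})
    (fun t _ => (meas_nm hA T _) (measurableSet_singleton _)) (shv k Z X) ?_ (a := lo) (b := b) hlo0 ?_ hGne ?_ hb0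
    (n := k * X * (Z : ℝ) ^ (4 * k - 1)) (card_shv hk)
  · rw [hcardG] at h
    exact h
  · intro t ht t' ht' _ hsh
    have hne : ∀ n ∈ T, ∀ i, t i / Z * n + t i % Z ≠ t' i / Z * n + t' i % Z := by
      intro n hn i h
      apply hsh
      unfold shv
      rw [mem_filter, mem_product]
      exact ⟨⟨ht, ht'⟩, i, n, mem_range.2 (hT n hn), h⟩
    have hmeas : ∀ t : Fin k → ℕ, MeasurableSet[F A ((T.biUnion (Uv Q Z R al be t) : Finset ℕ) : Set ℕ)]
        {ω | nm A T (Uv Q Z R al be t) ω = ((0 : ℕ) : ℝ)} := by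
      intro t
      have h1 : Measurable[F A ((T.biUnion (Uv Q Z R al be t) : Finset ℕ) : Set ℕ)] (nm A T (Uv Q Z R al be t)) := by
        let _ : MeasurableSpace Ω := F A ((T.biUnion (Uv Q Z R al be t) : Finset ℕ) : Set ℕ)
        unfold nm
        exact Finset.measurable_fun_sum T (fun n hn => F_ind (fun b hb => mem_coe.2 (mem_biUnion.2 ⟨n, hn, hb⟩)))
      exact h1 (measurableSet_singleton _)
    refine indep_real hA (S := ((T.biUnion (Uv Q Z R al be t) : Finset ℕ) : Set ℕ))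
      (T := ((T.biUnion (Uv Q Z R al be t') : Finset ℕ) : Set ℕ)) ?_ (hmeas t) (hmeas t')
    rw [Finset.disjoint_coe, disjoint_biUnion_left]
    intro n hn
    rw [disjoint_biUnion_right]
    intro n' hn'
    by_cases hnn : n = n'
    · subst hnn
      exact hdis n hn n hn' t ht t' ht' (Or.inr (hne n hn))
    · exact hdis n hn n' hn' t ht t' ht' (Or.inl hnn)
  · intro t ht
    have h1 := exact_low hA T (Uv Q Z R al be t) (fun n hn n' hn' hne => hdis n hn n' hn' t ht t ht (Or.inl hne))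
      (q := q ^ k) (q' := q' ^ k) (by positivity) hq'k.le (fun n hn => (hpU n hn t ht).1)
      (fun n hn => (hpU n hn t ht).2) (by positivity) 0
    rw [Nat.choose_zero_right, pow_zero, mul_one, Nat.cast_one, one_mul, ← hlo] at h1
    exact h1
  · intro t ht t' ht' htt' _
    have hex : ∃ i, t i ≠ t' i := by
      by_contra hcon
      push Not at hcon
      exact htt' (funext hcon)
    obtain ⟨i, hi⟩ := hex
    -- the arguments at which the forms agree
    obtain ⟨T', hT'⟩ : ∃ T', T' = T.filter (fun n => t i / Z * n + t i % Z ≠ t' i / Z * n + t' i % Z) := ⟨_, rfl⟩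
    have hbad : (T.filter (fun n => ¬ (t i / Z * n + t i % Z ≠ t' i / Z * n + t' i % Z))).card ≤ 1 := by
      rw [card_le_one]
      intro n hn n' hn'
      rw [mem_filter, not_not] at hn hn'
      by_contra hnn
      apply hi
      have e1 : ((t i / Z : ℕ) : ℤ) * n + (t i % Z : ℕ) = ((t' i / Z : ℕ) : ℤ) * n + (t' i % Z : ℕ) := by exact_mod_cast hn.2
      have e2 : ((t i / Z : ℕ) : ℤ) * n' + (t i % Z : ℕ) = ((t' i / Z : ℕ) : ℤ) * n' + (t' i % Z : ℕ) := by exact_mod_cast hn'.2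
      have e3 : (((t i / Z : ℕ) : ℤ) - (t' i / Z : ℕ)) * ((n : ℤ) - n') = 0 := by linear_combination e1 - e2
      have e4 : (n : ℤ) - n' ≠ 0 := by
        intro h
        apply hnn
        have : (n : ℤ) = n' := by linarith
        exact_mod_cast this
      have e5 : ((t i / Z : ℕ) : ℤ) - (t' i / Z : ℕ) = 0 := (mul_eq_zero.1 e3).resolve_right e4
      have e6 : t i / Z = t' i / Z := by
        have : ((t i / Z : ℕ) : ℤ) = (t' i / Z : ℕ) := by linarith
        exact_mod_cast this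
      have e7 : t i % Z = t' i % Z := by
        have e8 := hn.2
        rw [e6] at e8
        omega
      rw [← Nat.div_add_mod (t i) Z, ← Nat.div_add_mod (t' i) Z, e6, e7]
    have hcardT' : (T.card : ℝ) - 1 ≤ T'.card := by
      have h1 : T.card ≤ T'.card + 1 := by
        have h2 := card_filter_add_card_filter_not (s := T) (fun n => t i / Z * n + t i % Z ≠ t' i / Z * n + t' i % Z)
        rw [← hT'] at h2
        omega
      have h2 : (T.card : ℝ) ≤ T'.card + 1 := by exact_mod_cast h1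
      linarith
    have hT's : T' ⊆ T := by rw [hT']; exact filter_subset _ _
    have h1 := pair_up hA T' (Uv Q Z R al be t) (Uv Q Z R al be t') (fun n hn n' hn' hne => by
      rw [disjoint_union_left, disjoint_union_right, disjoint_union_right]
      exact ⟨⟨hdis n (hT's hn) n' (hT's hn') t ht t ht (Or.inl hne), hdis n (hT's hn) n' (hT's hn') t ht t' ht' (Or.inl hne)⟩,
        ⟨hdis n (hT's hn) n' (hT's hn') t' ht' t ht (Or.inl hne), hdis n (hT's hn) n' (hT's hn') t' ht' t' ht' (Or.inl hne)⟩⟩)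
      (z := 0) (g := g) (le_refl 0) (fun n hn => by
        obtain ⟨h1, _⟩ := hpU n (hT's hn) t ht
        obtain ⟨h3, h4⟩ := hpU n (hT's hn) t' ht'
        have h5 : pT p (Uv Q Z R al be t n ∪ Uv Q Z R al be t' n) ≤ q' ^ (k + 1) := by
          have hnot : vv Q Z R al be i (t i) n ∉ Uv Q Z R al be t' n := by
            intro h
            obtain ⟨i', e⟩ := mem_Uv.1 h
            obtain ⟨f1, _, f3⟩ := vv_inj hQ hal hbe hXR hR (mem_GG.1 ht i) (mem_GG.1 ht' i') (hT n (hT's hn))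
              (hT n (hT's hn)) e
            subst f1
            rw [hT', mem_filter] at hn
            exact hn.2 f3
          have hsub : insert (vv Q Z R al be i (t i) n) (Uv Q Z R al be t' n) ⊆
              Uv Q Z R al be t n ∪ Uv Q Z R al be t' n := by
            intro b hb
            rw [mem_insert] at hb
            rcases hb with rfl | hb
            · exact mem_union_left _ (mem_Uv.2 ⟨i, rfl⟩)
            · exact mem_union_right _ hb
          have f1 : pT p (Uv Q Z R al be t n ∪ Uv Q Z R al be t' n) ≤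
              pT p (insert (vv Q Z R al be i (t i) n) (Uv Q Z R al be t' n)) := by
            unfold pT
            rw [← prod_sdiff hsub]
            have e1 : ∏ i ∈ (Uv Q Z R al be t n ∪ Uv Q Z R al be t' n) \
                insert (vv Q Z R al be i (t i) n) (Uv Q Z R al be t' n), p i ≤ 1 :=
              prod_le_one (fun i _ => p_nonneg hA i) (fun i _ => p_le_one hA i)
            have e2 : 0 ≤ ∏ i ∈ insert (vv Q Z R al be i (t i) n) (Uv Q Z R al be t' n), p i :=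
              prod_nonneg (fun i _ => p_nonneg hA i)
            nlinarith
          refine f1.trans ?_
          unfold pT at h4 ⊢
          rw [prod_insert hnot, pow_succ, mul_comm]
          exact mul_le_mul h4 (hp n (hT's hn) i (t i) (mem_GG.1 ht i)).2 (p_nonneg hA _) (by positivity)
        linarith) 0
    rw [mul_zero, pow_zero, one_mul] at h1
    have h2 : μ.real ({ω | nm A T (Uv Q Z R al be t) ω = ((0 : ℕ) : ℝ)} ∩ {ω | nm A T (Uv Q Z R al be t') ω = ((0 : ℕ) : ℝ)}) ≤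
        μ.real ({ω | nm A T' (Uv Q Z R al be t) ω = ((0 : ℕ) : ℝ)} ∩ {ω | nm A T' (Uv Q Z R al be t') ω = ((0 : ℕ) : ℝ)}) := by
      have hmono : ∀ t : Fin k → ℕ, ∀ ω, nm A T (Uv Q Z R al be t) ω = ((0 : ℕ) : ℝ) → nm A T' (Uv Q Z R al be t) ω = ((0 : ℕ) : ℝ) := by
        intro t ω h
        have e1 : nm A T' (Uv Q Z R al be t) ω ≤ nm A T (Uv Q Z R al be t) ω :=
          sum_le_sum_of_subset_of_nonneg hT's (fun n _ _ => ind_nonneg _ _)
        have e2 := nm_nonneg (A := A) T' (Uv Q Z R al be t) ω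
        rw [h] at e1
        push_cast at e1 ⊢
        linarith
      refine measureReal_mono (fun ω hω => ?_) (measure_ne_top _ _)
      exact ⟨hmono t ω hω.1, hmono t' ω hω.2⟩
    refine h2.trans (h1.trans ?_)
    rw [hb]
    refine Real.exp_le_exp.2 ?_
    have := mul_le_mul_of_nonpos_right hcardT' hg0
    linarith

end Pool.Agent.Q106.LF
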