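import Pool.Agent.Q106.LF.Basic
import Pool.Agent.Q106.UR.Uni
import Pool.Agent.Q120.GM.Count

/-!
# The least argument at which all forms of a system have values in the random set: upper bound for all systems
-/

set_option autoImplicit false

namespace Pool.Agent.Q106.LF

open Finset MeasureTheory ProbabilityTheory Filter Pool.Agent.Q120.GM Pool.Agent.Q106.UR
open scoped Topology

variable {Ω : Type*} [MeasurableSpace Ω] {μ : Measure Ω} [IsProbabilityMeasure μ] {A : Ω → Set ℕ}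

/-- The range of the arguments. -/
noncomputable def XX (κ : ℝ) (k D : ℕ) : ℕ := ⌈κ * Real.log D ^ (k + 1)⌉₊

theorem poly_exp (κ δ : ℝ) (k : ℕ) (hδ : 0 < δ) : ∀ᶠ t : ℝ in atTop, κ * t ^ (k + 1) + 1 ≤ Real.exp (δ * t) := by
  have h1 : Tendsto (fun t : ℝ => t ^ (k + 1) * Real.exp (-δ * t)) atTop (𝓝 0) := by
    have := tendsto_rpow_mul_exp_neg_mul_atTop_nhds_zero ((k + 1 : ℕ) : ℝ) δ hδ
    refine this.congr (fun t => ?_)
    rw [Real.rpow_natCast]
  have h2 := h1.eventually_le_const (show (0 : ℝ) < 1 / (2 * (|κ| + 1)) by positivity)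
  have h3 : ∀ᶠ t : ℝ in atTop, 2 ≤ Real.exp (δ * t) := by
    have : Tendsto (fun t : ℝ => Real.exp (δ * t)) atTop atTop :=
      Real.tendsto_exp_atTop.comp (tendsto_id.const_mul_atTop hδ)
    exact this.eventually_ge_atTop 2
  filter_upwards [h2, h3, eventually_ge_atTop 0] with t h2 h3 ht
  have h4 : t ^ (k + 1) ≤ 1 / (2 * (|κ| + 1)) * Real.exp (δ * t) := by
    have h5 := mul_le_mul_of_nonneg_right h2 (Real.exp_pos (δ * t)).le
    rw [mul_assoc, ← Real.exp_add] at h5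
    have h6 : -δ * t + δ * t = 0 := by ring
    rw [h6, Real.exp_zero, mul_one] at h5
    exact h5
  have h5 : κ * t ^ (k + 1) ≤ (|κ| + 1) * t ^ (k + 1) := by
    refine mul_le_mul_of_nonneg_right ?_ (by positivity)
    linarith [le_abs_self κ]
  have h6 : (|κ| + 1) * t ^ (k + 1) ≤ Real.exp (δ * t) / 2 := by
    have h7 := mul_le_mul_of_nonneg_left h4 (show 0 ≤ |κ| + 1 by positivity)
    have h8 : (|κ| + 1) * (1 / (2 * (|κ| + 1)) * Real.exp (δ * t)) = Real.exp (δ * t) / 2 := by field_simp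
    linarith
  linarith

theorem exists_del (k : ℕ) {a b : ℝ} (ha : 0 < a) (hab : a < b) :
    ∃ δ, 0 < δ ∧ δ < 1 ∧ a * (1 + δ) ≤ (1 - δ) ^ 3 * b / (1 + δ) ^ k := by
  have h1 : Tendsto (fun δ : ℝ => (1 - δ) ^ 3 * b / (1 + δ) ^ k - a * (1 + δ)) (𝓝 0)
      (𝓝 ((1 - 0) ^ 3 * b / (1 + 0) ^ k - a * (1 + 0))) := by
    refine ContinuousAt.tendsto ?_
    refine ContinuousAt.sub (ContinuousAt.div (by fun_prop) (by fun_prop) (by norm_num)) (by fun_prop)
  have h2 : (1 - 0) ^ 3 * b / (1 + 0) ^ k - a * (1 + 0) = b - a := by norm_num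
  rw [h2] at h1
  obtain ⟨r, hr, h3⟩ := Metric.eventually_nhds_iff.1 (h1.eventually_const_lt (show 0 < b - a by linarith))
  refine ⟨min (r / 2) (1 / 2), by positivity, ?_, ?_⟩
  · exact (min_le_right _ _).trans_lt (by norm_num)
  · have h4 := h3 (y := min (r / 2) (1 / 2)) (by
      rw [dist_zero_right, Real.norm_of_nonneg (by positivity)]
      exact (min_le_left _ _).trans_lt (by linarith))
    linarith

/-- The probability that no argument up to `κ (log D)^(k+1)` works. -/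
theorem ev_none {Q : ℕ} (hA : IsModel μ (level Q) A) (hQ : 1 ≤ Q) {k : ℕ} (hk : 1 ≤ k) {s κ : ℝ} (hs : 0 < s)
    (hκ : 2 * k < s * κ) : ∃ δ > 0, ∀ᶠ D : ℕ in atTop, ∀ F, Sys k F → (∀ f ∈ F, f.1 ≤ D) → s ≤ singF Q F →
      μ.real {ω | ∀ n < XX κ k D, ω ∉ all A (vals F n)} ≤ Real.exp (-((2 * k + δ) * Real.log D)) := by
  have hq := qq_pos hQ
  have hk0 : (0 : ℝ) < k := by exact_mod_cast hk
  have hκ0 : 0 < κ := by
    have h1 : 0 < s * κ := by linarith
    exact (pos_iff_pos_of_mul_pos h1).1 hs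
  obtain ⟨δ, hδ0, hδ1, hδ⟩ := exists_del k (show 0 < 2 * (k : ℝ) by positivity) hκ
  obtain ⟨N, hN⟩ : ∃ N : ℕ, 2 / δ ≤ N := exists_nat_ge _
  have hN0 : (0 : ℝ) < N := lt_of_lt_of_le (by positivity) hN
  have hN1 : 1 ≤ N := by
    have : 0 < N := by exact_mod_cast hN0
    exact this
  have hNδ : 1 / (N : ℝ) ≤ δ / 2 := by
    rw [div_le_iff₀ hδ0] at hN
    rw [div_le_iff₀ hN0]
    linarith
  obtain ⟨B, hB⟩ : ∃ B, B = 1 + qq Q + (k : ℝ) ^ 2 * qq Q / δ := ⟨_, rfl⟩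
  have hB0 : 0 < B := by rw [hB]; positivity
  refine ⟨2 * k * δ, by positivity, ?_⟩
  have g1 := log_tendsto.eventually (poly_exp κ δ k hδ0)
  have g2 : ∀ᶠ D : ℕ in atTop, (Q + N * (Real.exp B + 1)) / (κ * (δ / 2)) ≤ Real.log D := log_tendsto.eventually_ge_atTop _
  filter_upwards [g1, g2, log_tendsto.eventually_ge_atTop 1, eventually_ge_atTop 1] with D h1 h2 h3 hD1 F hF hFD hsF
  obtain ⟨L, hL⟩ : ∃ L, L = Real.log D := ⟨_, rfl⟩
  obtain ⟨X, hX⟩ : ∃ X, X = XX κ k D := ⟨_, rfl⟩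
  rw [← hL] at h1 h2 h3 ⊢
  rw [← hX]
  have hL0 : 0 < L := by linarith
  have hD0 : (0 : ℝ) < D := by exact_mod_cast hD1
  have hLk : L ≤ L ^ (k + 1) := le_self_pow₀ h3 (by omega)
  have hX1 : κ * L ^ (k + 1) ≤ X := by rw [hX, hL]; exact Nat.le_ceil _
  have hX2 : (X : ℝ) < κ * L ^ (k + 1) + 1 := by rw [hX, hL]; exact Nat.ceil_lt_add_one (by positivity)
  have hbig : Q + N * (Real.exp B + 1) ≤ δ / 2 * (κ * L ^ (k + 1)) := by
    rw [div_le_iff₀ (by positivity)] at h2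
    have h4 : L * (κ * (δ / 2)) ≤ L ^ (k + 1) * (κ * (δ / 2)) := mul_le_mul_of_nonneg_right hLk (by positivity)
    linarith
  obtain ⟨y, hy⟩ : ∃ y, y = X / N := ⟨_, rfl⟩
  have hyX : y ≤ X := by rw [hy]; exact Nat.div_le_self _ _
  have hyr : (y : ℝ) ≤ X / N := by rw [hy]; exact Nat.cast_div_le
  have hylow : (X : ℝ) / N - 1 ≤ y := by
    have h4 : X < (y + 1) * N := by
      rw [hy]
      have := Nat.lt_div_mul_add (a := X) (b := N) hN1
      calc X < X / N * N + N := this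
        _ = (X / N + 1) * N := by ring
    have h5 : (X : ℝ) < (y + 1) * N := by exact_mod_cast h4
    have h6 : (X : ℝ) / N < y + 1 := by
      rw [div_lt_iff₀ hN0]
      exact h5
    linarith
  have hexpB : Real.exp B ≤ y := by
    have h4 : Real.exp B + 1 ≤ X / N := by
      rw [le_div_iff₀ hN0]
      have h5 : N * (Real.exp B + 1) ≤ κ * L ^ (k + 1) := by
        have h6 : δ / 2 * (κ * L ^ (k + 1)) ≤ 1 * (κ * L ^ (k + 1)) :=
          mul_le_mul_of_nonneg_right (by linarith) (by positivity)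
        have h7 : (0 : ℝ) ≤ Q := Nat.cast_nonneg Q
        linarith
      linarith
    linarith
  have hy0 : (0 : ℝ) < y := lt_of_lt_of_le (Real.exp_pos _) hexpB
  have hy1 : 1 ≤ y := by
    have : 0 < y := by exact_mod_cast hy0
    exact this
  have hly : B ≤ Real.log y := by
    have := Real.log_le_log (Real.exp_pos _) hexpB
    rwa [Real.log_exp] at this
  have hw : (1 - δ) * (κ * L ^ (k + 1)) ≤ (X : ℝ) - y - Q := by
    have h4 : (X : ℝ) - X / N ≥ (1 - δ / 2) * X := by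
      have h5 : (X : ℝ) / N ≤ δ / 2 * X := by
        calc (X : ℝ) / N = 1 / N * X := by ring
          _ ≤ δ / 2 * X := mul_le_mul_of_nonneg_right hNδ (Nat.cast_nonneg _)
      linarith
    have h5 : (1 - δ / 2) * (κ * L ^ (k + 1)) ≤ (1 - δ / 2) * X := mul_le_mul_of_nonneg_left hX1 (by linarith)
    have h6 : (0 : ℝ) ≤ N * (Real.exp B + 1) := by positivity
    linarith
  have hw0 : 0 ≤ (X : ℝ) - y - Q := le_trans (mul_nonneg (by linarith) (by positivity)) hw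
  have h4 := none_sys (μ := μ) (A := A) hA hQ hk hF hFD hyX hy1 (lt_of_lt_of_le hB0 hly) (by
    have : 0 ≤ (k : ℝ) ^ 2 * qq Q / δ := by positivity
    linarith) (θ := δ) (by
      rw [mul_div_assoc', div_le_iff₀ (lt_of_lt_of_le hB0 hly)]
      have h5 : (k : ℝ) ^ 2 * qq Q / δ ≤ Real.log y := by linarith
      rw [div_le_iff₀ hδ0] at h5
      linarith) hδ1.le hw0
  refine h4.trans (Real.exp_le_exp.2 (neg_le_neg ?_))
  have hlogDX : Real.log (D * X) ≤ (1 + δ) * L := by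
    have hX0 : (0 : ℝ) < X := lt_of_lt_of_le (by positivity) hX1
    rw [Real.log_mul hD0.ne' hX0.ne', ← hL]
    have h5 : Real.log X ≤ δ * L := by
      have h6 := Real.log_le_log hX0 (hX2.le.trans h1)
      rwa [Real.log_exp] at h6
    linarith
  have hlogDX0 : 0 < Real.log (D * X) := by
    have h5 : (y : ℝ) ≤ D * X := by
      have e1 : (1 : ℝ) ≤ D := by exact_mod_cast hD1
      have e2 : (y : ℝ) ≤ X := by exact_mod_cast hyX
      nlinarith
    have h6 := Real.log_le_log hy0 h5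
    linarith
  have h5 : (1 - δ) * (κ * L ^ (k + 1)) * s / ((1 + δ) * L) ^ k ≤ ((X : ℝ) - y - Q) * singF Q F / Real.log (D * X) ^ k := by
    refine div_le_div₀ (mul_nonneg hw0 (by linarith)) ?_ (by positivity) (pow_le_pow_left₀ hlogDX0.le hlogDX k)
    exact mul_le_mul hw hsF hs.le hw0
  have h6 : (1 - δ) * (κ * L ^ (k + 1)) * s / ((1 + δ) * L) ^ k = (1 - δ) * (s * κ) / (1 + δ) ^ k * L := by
    rw [mul_pow, pow_succ]
    field_simp
  rw [h6] at h5
  have h7 := mul_le_mul_of_nonneg_left h5 (show 0 ≤ 1 - δ by linarith)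
  refine le_trans ?_ h7
  have h8 : (1 - δ) ^ 3 * (s * κ) / (1 + δ) ^ k ≤ (1 - δ) * ((1 - δ) * (s * κ) / (1 + δ) ^ k) := by
    have h9 : (1 - δ) * ((1 - δ) * (s * κ) / (1 + δ) ^ k) = (1 - δ) ^ 2 * (s * κ) / (1 + δ) ^ k := by ring
    rw [h9]
    have hsκ : 0 < s * κ := by positivity
    refine div_le_div_of_nonneg_right (mul_le_mul_of_nonneg_right ?_ hsκ.le) (by positivity)
    have : 0 ≤ (1 - δ) ^ 2 := sq_nonneg _
    nlinarith
  have h9 : 2 * k + 2 * k * δ ≤ (1 - δ) * ((1 - δ) * (s * κ) / (1 + δ) ^ k) := by linarith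
  have h10 := mul_le_mul_of_nonneg_right h9 hL0.le
  linarith

/-- **Upper bound for the least argument, for all systems.** -/
theorem least_up {Q : ℕ} (hA : IsModel μ (level Q) A) (hQ : 1 ≤ Q) {k : ℕ} (hk : 1 ≤ k) {s κ : ℝ} (hs : 0 < s)
    (hκ : 2 * k < s * κ) : ∀ᵐ ω ∂μ, ∀ᶠ D : ℕ in atTop, ∀ F, Sys k F → (∀ f ∈ F, f.1 ≤ D) → s ≤ singF Q F →
      ∃ n : ℕ, (n : ℝ) < κ * Real.log D ^ (k + 1) ∧ ∀ m ∈ vals F n, m ∈ A ω := by
  have hκ0 : 0 < κ := by
    have h1 : 0 < s * κ := lt_of_le_of_lt (by positivity) hκ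
    exact (pos_iff_pos_of_mul_pos h1).1 hs
  -- a smaller constant
  obtain ⟨κ', h1, h2⟩ : ∃ κ', 2 * k < s * κ' ∧ κ' < κ := by
    have h3 : 2 * k / s < κ := by
      rw [div_lt_iff₀ hs]
      linarith
    obtain ⟨κ', h4, h5⟩ := exists_between h3
    rw [div_lt_iff₀ hs] at h4
    exact ⟨κ', by linarith, h5⟩
  have hκ'0 : 0 < κ' := by
    have h3 : 0 < s * κ' := lt_of_le_of_lt (by positivity) h1
    exact (pos_iff_pos_of_mul_pos h3).1 hs
  obtain ⟨δ, hδ0, hδ⟩ := ev_none (μ := μ) (A := A) hA hQ hk hs h1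
  classical
  obtain ⟨P, hP⟩ : ∃ P : ℕ → Finset (Finset (ℕ × ℕ)), P = fun D => ((Icc 1 D ×ˢ Icc 1 D).powersetCard k).filter
    (fun F => Sys k F ∧ (∀ f ∈ F, f.1 ≤ D) ∧ s ≤ singF Q F) := ⟨_, rfl⟩
  obtain ⟨E, hE⟩ : ∃ E : ℕ → Finset (ℕ × ℕ) → Set Ω, E = fun D F => {ω | ∀ n < XX κ' k D, ω ∉ all A (vals F n)} := ⟨_, rfl⟩
  have hPc : ∀ D, ((P D).card : ℝ) ≤ (D : ℝ) ^ (2 * k) := by
    intro D
    have h3 : (P D).card ≤ (D * D) ^ k := by
      rw [hP]
      refine (card_filter_le _ _).trans ?_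
      rw [card_powersetCard, card_product, Nat.card_Icc, Nat.add_sub_cancel]
      exact Nat.choose_le_pow _ _
    have h4 : ((P D).card : ℝ) ≤ ((D : ℝ) * D) ^ k := by exact_mod_cast h3
    refine h4.trans (le_of_eq ?_)
    rw [← sq, ← pow_mul]
  have hbound : ∀ᶠ i : ℕ in atTop, μ.real (⋃ F ∈ P (2 ^ i), E (2 ^ i) F) ≤ ((2 : ℝ) ^ i) ^ (-δ) := by
    filter_upwards [Pool.Agent.Q120.GM.two_pow_tendsto.eventually hδ] with i hi
    refine (measureReal_biUnion_finset_le _ _).trans ?_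
    have h3 : ∀ F ∈ P (2 ^ i), μ.real (E (2 ^ i) F) ≤ ((2 : ℝ) ^ i) ^ (-(2 * k + δ)) := by
      intro F hF
      rw [hP, mem_filter] at hF
      obtain ⟨_, h4, h5, h6⟩ := hF
      rw [hE]
      refine (hi F h4 h5 h6).trans (le_of_eq ?_)
      have h7 : (0 : ℝ) < (2 : ℝ) ^ i := by positivity
      rw [Real.rpow_def_of_pos h7]
      push_cast
      congr 1
      ring
    refine (sum_le_sum h3).trans ?_
    rw [sum_const, nsmul_eq_mul]
    have h4 := hPc (2 ^ i)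
    push_cast at h4
    refine (mul_le_mul_of_nonneg_right h4 (by positivity)).trans (le_of_eq ?_)
    have h7 : (0 : ℝ) < (2 : ℝ) ^ i := by positivity
    rw [← Real.rpow_natCast ((2 : ℝ) ^ i) (2 * k), ← Real.rpow_add h7]
    congr 1
    push_cast
    ring
  filter_upwards [bc (Pool.Agent.Q120.GM.summable_two_pow hδ0) hbound] with ω hω
  obtain ⟨I, hI⟩ := eventually_atTop.1 hω
  have g1 : ∀ᶠ D : ℕ in atTop, κ' * Real.log (2 * D) ^ (k + 1) + 1 ≤ κ * Real.log D ^ (k + 1) := by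
    obtain ⟨δ', hδ'0, _, hδ'⟩ := exists_del (k + 1) hκ'0 h2
    -- `κ' (1+δ)^(k+1) < κ`
    have e1 : κ' * (1 + δ') ^ (k + 1) < κ := by
      have e2 : κ' * (1 + δ') ≤ (1 - δ') ^ 3 * κ / (1 + δ') ^ (k + 1) := hδ'
      rw [le_div_iff₀ (by positivity)] at e2
      have e3 : (1 - δ') ^ 3 ≤ 1 := by
        have : δ' ≤ 1 := by linarith
        exact pow_le_one₀ (by linarith) (by linarith)
      have e4 : κ' * (1 + δ') ^ (k + 1) < κ' * (1 + δ') * (1 + δ') ^ (k + 1) := by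
        have : 0 < κ' * (1 + δ') ^ (k + 1) := by positivity
        nlinarith
      have e5 : (1 - δ') ^ 3 * κ ≤ 1 * κ := mul_le_mul_of_nonneg_right e3 hκ0.le
      linarith
    filter_upwards [log_tendsto.eventually_ge_atTop (Real.log 2 / δ'), log_tendsto.eventually_ge_atTop 1,
      log_tendsto.eventually_ge_atTop (1 / (κ - κ' * (1 + δ') ^ (k + 1))), eventually_ge_atTop 1] with D e2 e3 e4 e5
    have hD0 : (0 : ℝ) < D := by exact_mod_cast e5
    have e6 : Real.log (2 * D) ≤ (1 + δ') * Real.log D := by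
      rw [Real.log_mul (by norm_num) hD0.ne']
      rw [div_le_iff₀ hδ'0] at e2
      linarith
    have e7 : 0 ≤ Real.log (2 * D) := by
      refine Real.log_nonneg ?_
      have : (1 : ℝ) ≤ D := by exact_mod_cast e5
      linarith
    have e8 := mul_le_mul_of_nonneg_left (pow_le_pow_left₀ e7 e6 (k + 1)) hκ'0.le
    rw [mul_pow] at e8
    have e9 : 1 ≤ (κ - κ' * (1 + δ') ^ (k + 1)) * Real.log D ^ (k + 1) := by
      have e10 : Real.log D ≤ Real.log D ^ (k + 1) := le_self_pow₀ e3 (by omega)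
      have e11 : 0 < κ - κ' * (1 + δ') ^ (k + 1) := by linarith
      rw [div_le_iff₀ e11] at e4
      nlinarith
    nlinarith
  filter_upwards [g1, eventually_ge_atTop (2 ^ I)] with D hD1 hD2 F hF hFD hsF
  obtain ⟨i, hi⟩ : ∃ i, i = Nat.log 2 D + 1 := ⟨_, rfl⟩
  have hDpos : 1 ≤ D := le_trans Nat.one_le_two_pow hD2
  have h3 : 2 ^ (Nat.log 2 D) ≤ D := Nat.pow_log_le_self 2 (by omega)
  have h4 : D < 2 ^ i := by rw [hi]; exact Nat.lt_pow_succ_log_self (by norm_num) D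
  have h5 : I ≤ i := by
    have : I ≤ Nat.log 2 D := (Nat.le_log_iff_pow_le (by norm_num) (by omega)).2 hD2
    omega
  have h6 := hI i h5
  have h7 : F ∈ P (2 ^ i) := by
    rw [hP, mem_filter, mem_powersetCard]
    refine ⟨⟨fun f hf => ?_, hF.1⟩, hF, fun f hf => (hFD f hf).trans h4.le, hsF⟩
    have e1 := hF.2 f hf
    have e2 := hFD f hf
    rw [mem_product, mem_Icc, mem_Icc]
    omega
  have h8 : ω ∉ E (2 ^ i) F := fun h => h6 (Set.mem_biUnion (x := F) h7 h)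
  rw [hE] at h8
  have h9 : ∃ n < XX κ' k (2 ^ i), ω ∈ all A (vals F n) := by
    by_contra hcon
    push Not at hcon
    exact h8 hcon
  obtain ⟨n, hn1, hn2⟩ := h9
  refine ⟨n, ?_, fun m hm => hn2 m hm⟩
  have h10 : (XX κ' k (2 ^ i) : ℝ) < κ' * Real.log (2 * D) ^ (k + 1) + 1 := by
    unfold XX
    refine (Nat.ceil_lt_add_one ?_).trans_le ?_
    · have : 0 ≤ Real.log ((2 ^ i : ℕ) : ℝ) := Real.log_natCast_nonneg _
      positivity
    · have h11 : ((2 ^ i : ℕ) : ℝ) ≤ 2 * D := by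
        rw [hi, pow_succ]
        have : ((2 ^ (Nat.log 2 D) : ℕ) : ℝ) ≤ D := by exact_mod_cast h3
        push_cast at this ⊢
        linarith
      have h12 : Real.log ((2 ^ i : ℕ) : ℝ) ≤ Real.log (2 * D) := Real.log_le_log (by positivity) h11
      have h13 := mul_le_mul_of_nonneg_left (pow_le_pow_left₀ (Real.log_natCast_nonneg _) h12 (k + 1)) hκ'0.le
      linarith
  have h11 : (n : ℝ) < XX κ' k (2 ^ i) := by exact_mod_cast hn1
  linarith

end Pool.Agent.Q106.LF
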