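import Pool.Agent.Q106.LF.Low
import Pool.Agent.Q106.LF.Up
import Pool.Agent.Q106.UR.Asy

/-!
# Existence of systems with a large least argument: the probability bound
-/

set_option autoImplicit false

namespace Pool.Agent.Q106.LF

open Finset MeasureTheory ProbabilityTheory Filter Pool.Agent.Q120.GM Pool.Agent.Q106.UR
open scoped Topology

/-- The size of the family. -/
noncomputable def ZZ (κ : ℝ) (k Q D : ℕ) : ℕ := D / (Q * (XX κ k D + 2) ^ (2 * k + 2))

variable {k Q Z R X : ℕ} {al be : Fin k → ℕ}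

/-- Bounds for the values. -/
theorem vv_bounds (hQ : 1 ≤ Q) (hal : ∀ i, al i < Q) (hbe : ∀ i, be i < Q) (hR : R = X + 2) (i : Fin k) {t n : ℕ}
    (ht : t < Z * Z) (hn : n < X) : Z ≤ vv Q Z R al be i t n ∧ vv Q Z R al be i t n ≤ Q * Z * R ^ (2 * k + 2) := by
  have hi := i.2
  have h1 := rem_lt (X := X) hQ hal hbe (R := R) (by omega) (i := i) ht hn
  have hR2 : 2 ≤ R := by omega
  obtain ⟨e, he⟩ : ∃ e, 2 * (k - i.1) = e + 1 := ⟨2 * (k - i.1) - 1, by omega⟩
  rw [vv_eq, he, Nat.add_sub_cancel]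
  have hRe : 1 ≤ R ^ e := Nat.one_le_pow _ _ (by omega)
  constructor
  · calc Z ≤ Q * Z * R := by
          calc Z = 1 * Z * 1 := by ring
            _ ≤ Q * Z * R := Nat.mul_le_mul (Nat.mul_le_mul hQ (le_refl Z)) (by omega)
      _ ≤ Q * Z * R * (R ^ (e + 1) * n + R ^ e) := Nat.le_mul_of_pos_right _ (by omega)
      _ ≤ _ := Nat.le_add_right _ _
  · have h2 : R ^ (e + 1) * n + R ^ e + 1 ≤ R ^ (2 * k) * R := by
      have h3 : R ^ e + 1 ≤ R ^ (e + 1) := by
        rw [pow_succ]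
        nlinarith
      have h4 : R ^ (e + 1) ≤ R ^ (2 * k) := Nat.pow_le_pow_right (by omega) (by omega)
      calc R ^ (e + 1) * n + R ^ e + 1 ≤ R ^ (e + 1) * n + R ^ (e + 1) := by omega
        _ = R ^ (e + 1) * (n + 1) := by ring
        _ ≤ R ^ (2 * k) * R := Nat.mul_le_mul h4 (by omega)
    calc Q * Z * R * (R ^ (e + 1) * n + R ^ e) + (al i * n + be i + Q * (t / Z * n + t % Z))
        ≤ Q * Z * R * (R ^ (e + 1) * n + R ^ e) + Q * Z * R := by omega
      _ = Q * Z * R * (R ^ (e + 1) * n + R ^ e + 1) := by ring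
      _ ≤ Q * Z * R * (R ^ (2 * k) * R) := Nat.mul_le_mul_left _ h2
      _ = Q * Z * R ^ (2 * k + 2) := by rw [pow_add]; ring

/-- The values are good at the good arguments. -/
theorem vv_cop {F₀ : Finset (ℕ × ℕ)} {f : Fin k → ℕ × ℕ} (hf : ∀ i, f i ∈ F₀) (hal : ∀ i, al i = (f i).1 % Q)
    (hbe : ∀ i, be i = (f i).2 % Q) {n : ℕ} (hn : GoodF Q F₀ n) (i : Fin k) (t : ℕ) :
    (vv Q Z R al be i t n).Coprime Q := by
  have h1 := hn (f i) (hf i)
  unfold vv av bv
  rw [hal, hbe]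
  have h2 : ((f i).1 % Q + Q * (Z * R ^ (2 * (k - i.1) + 1) + t / Z)) * n + ((f i).2 % Q + Q * (Z * R ^ (2 * (k - i.1)) + t % Z)) =
      ((f i).1 % Q * n + (f i).2 % Q) + Q * ((Z * R ^ (2 * (k - i.1) + 1) + t / Z) * n + (Z * R ^ (2 * (k - i.1)) + t % Z)) := by
    ring
  rw [h2, Nat.coprime_add_mul_left_left]
  have h3 : ((f i).1 % Q * n + (f i).2 % Q) + Q * ((f i).1 / Q * n + (f i).2 / Q) = (f i).1 * n + (f i).2 := by
    conv_rhs => rw [← Nat.div_add_mod (f i).1 Q, ← Nat.div_add_mod (f i).2 Q]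
    ring
  rw [← h3, Nat.coprime_add_mul_left_left] at h1
  exact h1

theorem scale {κ κ' : ℝ} (k : ℕ) (h0 : 0 < κ) (h1 : κ < κ') :
    ∀ᶠ D : ℕ in atTop, κ * Real.log (2 * D) ^ (k + 1) + 1 ≤ κ' * Real.log D ^ (k + 1) := by
  obtain ⟨δ', hδ'0, _, hδ'⟩ := exists_del (k + 1) h0 h1
  have hκ'0 : 0 < κ' := by linarith
  have e1 : κ * (1 + δ') ^ (k + 1) < κ' := by
    have e2 : κ * (1 + δ') ≤ (1 - δ') ^ 3 * κ' / (1 + δ') ^ (k + 1) := hδ'
    rw [le_div_iff₀ (by positivity)] at e2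
    have e3 : (1 - δ') ^ 3 ≤ 1 := by
      have : δ' ≤ 1 := by linarith
      exact pow_le_one₀ (by linarith) (by linarith)
    have e4 : κ * (1 + δ') ^ (k + 1) < κ * (1 + δ') * (1 + δ') ^ (k + 1) := by
      have : 0 < κ * (1 + δ') ^ (k + 1) := by positivity
      nlinarith
    have e5 : (1 - δ') ^ 3 * κ' ≤ 1 * κ' := mul_le_mul_of_nonneg_right e3 hκ'0.le
    linarith
  filter_upwards [log_tendsto.eventually_ge_atTop (Real.log 2 / δ'), log_tendsto.eventually_ge_atTop 1,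
    log_tendsto.eventually_ge_atTop (1 / (κ' - κ * (1 + δ') ^ (k + 1))), eventually_ge_atTop 1] with D e2 e3 e4 e5
  have hD0 : (0 : ℝ) < D := by exact_mod_cast e5
  have e6 : Real.log (2 * D) ≤ (1 + δ') * Real.log D := by
    rw [Real.log_mul (by norm_num) hD0.ne']
    rw [div_le_iff₀ hδ'0] at e2
    linarith
  have e7 : 0 ≤ Real.log (2 * D) := by
    refine Real.log_nonneg ?_
    have : (1 : ℝ) ≤ D := by exact_mod_cast e5
    linarith
  have e8 := mul_le_mul_of_nonneg_left (pow_le_pow_left₀ e7 e6 (k + 1)) h0.le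
  rw [mul_pow] at e8
  have e9 : 1 ≤ (κ' - κ * (1 + δ') ^ (k + 1)) * Real.log D ^ (k + 1) := by
    have e10 : Real.log D ≤ Real.log D ^ (k + 1) := le_self_pow₀ e3 (by omega)
    have e11 : 0 < κ' - κ * (1 + δ') ^ (k + 1) := by linarith
    rw [div_le_iff₀ e11] at e4
    nlinarith
  nlinarith

/-- The sizes. -/
theorem ev_sizes (κ : ℝ) (k Q : ℕ) (hQ : 1 ≤ Q) (hκ : 0 < κ) {η : ℝ} (hη : 0 < η) (hη1 : η ≤ 1 / 2) (C : ℝ) :
    ∀ᶠ D : ℕ in atTop, 1 ≤ Real.log D ∧ C ≤ Real.log D ∧ 2 ≤ XX κ k D ∧ Real.exp ((1 - η) * Real.log D) ≤ ZZ κ k Q D ∧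
      (XX κ k D : ℝ) ≤ Real.exp (η * Real.log D) ∧ (XX κ k D : ℝ) ≤ κ * Real.log D ^ (k + 1) + 1 := by
  obtain ⟨δ, hδ⟩ : ∃ δ, δ = η / (2 * (2 * k + 2)) := ⟨_, rfl⟩
  have hδ0 : 0 < δ := by rw [hδ]; positivity
  have hδη : δ ≤ η := by
    rw [hδ]
    exact div_le_self hη.le (by
      have : (0 : ℝ) ≤ k := Nat.cast_nonneg k
      linarith)
  have hQ0 : (0 : ℝ) < Q := by exact_mod_cast hQ
  filter_upwards [log_tendsto.eventually (poly_exp κ δ k hδ0), log_tendsto.eventually_ge_atTop 1,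
    log_tendsto.eventually_ge_atTop C, log_tendsto.eventually_ge_atTop (2 / κ),
    log_tendsto.eventually_ge_atTop (Real.log (2 * Q * 3 ^ (2 * k + 2)) / (η / 2)), eventually_ge_atTop 1]
    with D h1 h2 h3 h4 h5 h6
  have hL0 : 0 < Real.log D := by linarith
  obtain ⟨L, hL⟩ : ∃ L, L = Real.log D := ⟨_, rfl⟩
  rw [← hL] at h1 h2 h3 h4 h5 hL0 ⊢
  have hD0 : (0 : ℝ) < D := by exact_mod_cast h6
  have hLk : L ≤ L ^ (k + 1) := le_self_pow₀ h2 (by omega)
  have hXu : (XX κ k D : ℝ) ≤ κ * L ^ (k + 1) + 1 := by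
    unfold XX
    rw [← hL]
    exact (Nat.ceil_lt_add_one (by positivity)).le
  have hXl : κ * L ^ (k + 1) ≤ XX κ k D := by
    unfold XX
    rw [← hL]
    exact Nat.le_ceil _
  have h7 : 2 ≤ κ * L := by
    rw [div_le_iff₀ hκ] at h4
    linarith
  have h8 : (2 : ℝ) ≤ XX κ k D := by
    have := mul_le_mul_of_nonneg_left hLk hκ.le
    linarith
  refine ⟨h2, h3, by exact_mod_cast h8, ?_, ?_, hXu⟩
  · -- the size of Z
    obtain ⟨R, hR⟩ : ∃ R, R = XX κ k D + 2 := ⟨_, rfl⟩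
    have hR1 : (R : ℝ) ≤ 3 * Real.exp (δ * L) := by
      rw [hR]
      push_cast
      have : 1 ≤ Real.exp (δ * L) := Real.one_le_exp (by positivity)
      linarith
    have hRpos : (0 : ℝ) < R := by rw [hR]; positivity
    have hRk : 2 * (Q * (R : ℝ) ^ (2 * k + 2)) ≤ Real.exp (η * L) := by
      have e1 := pow_le_pow_left₀ hRpos.le hR1 (2 * k + 2)
      rw [mul_pow, ← Real.exp_nat_mul] at e1
      have e2 : ((2 * k + 2 : ℕ) : ℝ) * (δ * L) = η / 2 * L := by
        rw [hδ]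
        push_cast
        field_simp
      rw [e2] at e1
      have e3 : 2 * Q * 3 ^ (2 * k + 2) ≤ Real.exp (η / 2 * L) := by
        rw [div_le_iff₀ (by positivity)] at h5
        have e4 : (0 : ℝ) < 2 * Q * 3 ^ (2 * k + 2) := by positivity
        rw [← Real.exp_log e4]
        exact Real.exp_le_exp.2 (by linarith)
      calc 2 * (Q * (R : ℝ) ^ (2 * k + 2)) ≤ 2 * (Q * (3 ^ (2 * k + 2) * Real.exp (η / 2 * L))) := by
            refine mul_le_mul_of_nonneg_left (mul_le_mul_of_nonneg_left e1 hQ0.le) (by norm_num)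
        _ = (2 * Q * 3 ^ (2 * k + 2)) * Real.exp (η / 2 * L) := by ring
        _ ≤ Real.exp (η / 2 * L) * Real.exp (η / 2 * L) := mul_le_mul_of_nonneg_right e3 (Real.exp_pos _).le
        _ = Real.exp (η * L) := by
            rw [← Real.exp_add]
            congr 1
            ring
    have hden : (0 : ℝ) < Q * (R : ℝ) ^ (2 * k + 2) := by positivity
    have h9 : (D : ℝ) / (Q * (R : ℝ) ^ (2 * k + 2)) < ((ZZ κ k Q D : ℕ) : ℝ) + 1 := by
      rw [div_lt_iff₀ hden]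
      have hnat : 0 < Q * R ^ (2 * k + 2) := Nat.mul_pos hQ (pow_pos (by omega) _)
      have e1 : D < (ZZ κ k Q D + 1) * (Q * R ^ (2 * k + 2)) := by
        unfold ZZ
        rw [← hR]
        have := Nat.lt_div_mul_add (a := D) (b := Q * R ^ (2 * k + 2)) hnat
        calc D < D / (Q * R ^ (2 * k + 2)) * (Q * R ^ (2 * k + 2)) + Q * R ^ (2 * k + 2) := this
          _ = _ := by ring
      exact_mod_cast e1
    have h10 : 2 * Real.exp ((1 - η) * L) ≤ (D : ℝ) / (Q * (R : ℝ) ^ (2 * k + 2)) := by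
      rw [le_div_iff₀ hden]
      have e1 : Real.exp ((1 - η) * L) * Real.exp (η * L) = D := by
        rw [← Real.exp_add, hL]
        have : (1 - η) * Real.log D + η * Real.log D = Real.log D := by ring
        rw [this, Real.exp_log hD0]
      calc 2 * Real.exp ((1 - η) * L) * (Q * (R : ℝ) ^ (2 * k + 2)) =
            Real.exp ((1 - η) * L) * (2 * (Q * (R : ℝ) ^ (2 * k + 2))) := by ring
        _ ≤ Real.exp ((1 - η) * L) * Real.exp (η * L) := mul_le_mul_of_nonneg_left hRk (Real.exp_pos _).le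
        _ = D := e1
    have h11 : 1 ≤ Real.exp ((1 - η) * L) := Real.one_le_exp (mul_nonneg (by linarith) hL0.le)
    linarith
  · refine (hXu.trans h1).trans (Real.exp_le_exp.2 ?_)
    exact mul_le_mul_of_nonneg_right hδη hL0.le

/-- **The probability that every system of the family has a small argument.** -/
theorem ev_fam {Ω : Type*} [MeasurableSpace Ω] {μ : Measure Ω} [IsProbabilityMeasure μ] {A : Ω → Set ℕ} {Q : ℕ}
    (hA : IsModel μ (level Q) A) (hQ : 1 ≤ Q) {k : ℕ} (hk : 1 ≤ k) {F₀ : Finset (ℕ × ℕ)} (hF₀ : F₀.card = k)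
    {f : Fin k → ℕ × ℕ} (hf : ∀ i, f i ∈ F₀) {al be : Fin k → ℕ} (hal : ∀ i, al i = (f i).1 % Q)
    (hbe : ∀ i, be i = (f i).2 % Q) {κ : ℝ} (hκ : 0 < κ) (hsκ : singF Q F₀ * κ < 2 * k) :
    ∃ δ > 0, ∀ᶠ D : ℕ in atTop, μ.real {ω | ∀ t ∈ GG k (ZZ κ k Q D * ZZ κ k Q D),
      ∃ n ∈ (range (XX κ k D)).filter (GoodF Q F₀), ω ∈ all A (Uv Q (ZZ κ k Q D) (XX κ k D + 2) al be t n)} ≤
        2 * Real.exp (-(δ * Real.log D)) := by
  have hq := qq_pos hQ
  have hk0 : (0 : ℝ) < k := by exact_mod_cast hk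
  have hs0 : 0 ≤ singF Q F₀ := by
    rw [singF_eq]
    positivity
  obtain ⟨s, hs⟩ : ∃ s, s = singF Q F₀ := ⟨_, rfl⟩
  rw [← hs] at hsκ hs0
  obtain ⟨c, hc1, hc2⟩ := exists_between hsκ
  have hc0 : 0 < c := lt_of_le_of_lt (by positivity) hc1
  -- the small parameters
  obtain ⟨η, hη⟩ : ∃ η, η = min (1 / 4) (min ((2 * k - c) / (2 * (2 * k + 4 * c))) (1 / (2 * (1 + c * (2 * k + 9))))) :=
    ⟨_, rfl⟩
  have hη0 : 0 < η := by
    rw [hη]
    refine lt_min (by norm_num) (lt_min (div_pos (by linarith) (by positivity)) (by positivity))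
  have hη1 : η ≤ 1 / 4 := by rw [hη]; exact min_le_left _ _
  have hη2 : η * (2 * k + 4 * c) ≤ (2 * k - c) / 2 := by
    have h1 : η ≤ (2 * k - c) / (2 * (2 * k + 4 * c)) := by rw [hη]; exact (min_le_right _ _).trans (min_le_left _ _)
    have h2 : 0 < 2 * (k : ℝ) + 4 * c := by positivity
    rw [le_div_iff₀ (by positivity)] at h1
    linarith
  have hη3 : η * (1 + c * (2 * k + 9)) ≤ 1 / 2 := by
    have h1 : η ≤ 1 / (2 * (1 + c * (2 * k + 9))) := by rw [hη]; exact (min_le_right _ _).trans (min_le_right _ _)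
    rw [le_div_iff₀ (by positivity)] at h1
    linarith
  obtain ⟨δ, hδ⟩ : ∃ δ, δ = min ((2 * k - c) / 2) (1 / 4) := ⟨_, rfl⟩
  have hδ0 : 0 < δ := by rw [hδ]; exact lt_min (by linarith) (by norm_num)
  have hδ1 : δ ≤ (2 * k - c) / 2 := by rw [hδ]; exact min_le_left _ _
  have hδ2 : δ ≤ 1 / 4 := by rw [hδ]; exact min_le_right _ _
  refine ⟨δ, hδ0, ?_⟩
  -- the bound `|T| q'^k ≤ c L` needs a smaller parameter
  obtain ⟨ε, hε0, hε1, hε2⟩ : ∃ ε, 0 < ε ∧ ε ≤ η ∧ s * κ * (1 + ε) / (1 - ε) ^ k ≤ c := by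
    have h1 : Tendsto (fun ε : ℝ => s * κ * (1 + ε) / (1 - ε) ^ k) (𝓝 0) (𝓝 (s * κ * (1 + 0) / (1 - 0) ^ k)) := by
      refine ContinuousAt.tendsto ?_
      exact ContinuousAt.div (by fun_prop) (by fun_prop) (by norm_num)
    have h2 : s * κ * (1 + 0) / (1 - 0) ^ k = s * κ := by norm_num
    rw [h2] at h1
    obtain ⟨r, hr, h3⟩ := Metric.eventually_nhds_iff.1 (h1.eventually_lt_const hc1)
    refine ⟨min (r / 2) η, lt_min (by linarith) hη0, min_le_right _ _, (h3 ?_).le⟩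
    rw [dist_zero_right, Real.norm_of_nonneg (le_min (by linarith) hη0.le)]
    exact (min_le_left _ _).trans_lt (by linarith)
  obtain ⟨δ', hδ'⟩ : ∃ δ', δ' = δ / 2 := ⟨_, rfl⟩
  have hδ'0 : 0 < δ' := by rw [hδ']; linarith
  filter_upwards [ev_sizes κ k Q hQ hκ hε0 (by linarith) (2 * qq Q * 2 ^ k / η + (1 + Q) / (κ * ε)),
    ev_sizes κ k Q hQ hκ hδ'0 (by linarith) ((Real.log k + 2) / δ')] with D hD hD'
  obtain ⟨L, hL⟩ : ∃ L, L = Real.log D := ⟨_, rfl⟩
  obtain ⟨X, hX⟩ : ∃ X, X = XX κ k D := ⟨_, rfl⟩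
  obtain ⟨Z, hZ⟩ : ∃ Z, Z = ZZ κ k Q D := ⟨_, rfl⟩
  rw [← hL, ← hX, ← hZ] at hD hD' ⊢
  obtain ⟨h1, h2, h3, h4, h5, h6⟩ := hD
  obtain ⟨_, g2, _, _, g5, _⟩ := hD'
  have hL0 : 0 < L := by linarith
  have hZpos : (0 : ℝ) < Z := lt_of_lt_of_le (Real.exp_pos _) h4
  have hZ1 : 1 ≤ Z := by
    have : 0 < Z := by exact_mod_cast hZpos
    exact this
  have hD1 : 1 ≤ D := by
    by_contra hcon
    have : D = 0 := by omega
    rw [this] at hL
    norm_num at hL
    linarith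
  have hD0 : (0 : ℝ) < D := by exact_mod_cast hD1
  have hlZ : (1 - ε) * L ≤ Real.log Z := by
    have := Real.log_le_log (Real.exp_pos _) h4
    rwa [Real.log_exp] at this
  have hlZη : (1 - η) * L ≤ Real.log Z := by
    have : (1 - η) * L ≤ (1 - ε) * L := mul_le_mul_of_nonneg_right (by linarith) hL0.le
    linarith
  have hlZ2 : L / 2 ≤ Real.log Z := by
    have : 1 / 2 * L ≤ (1 - ε) * L := mul_le_mul_of_nonneg_right (by linarith) hL0.le
    linarith
  have hlZ0 : 0 < Real.log Z := by linarith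
  have hQ0 : (0 : ℝ) < Q := by exact_mod_cast hQ
  -- the two parts of the lower bound for L
  have p1 : 0 ≤ 2 * qq Q * 2 ^ k / η := by positivity
  have p2 : 0 ≤ (1 + Q) / (κ * ε) := by positivity
  have hLq : 2 * qq Q * 2 ^ k ≤ η * L := by
    have : 2 * qq Q * 2 ^ k / η ≤ L := by linarith
    rw [div_le_iff₀ hη0] at this
    linarith
  have hLX : 1 + Q ≤ κ * ε * L := by
    have : (1 + Q) / (κ * ε) ≤ L := by linarith
    rw [div_le_iff₀ (by positivity)] at this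
    linarith
  have h2k : (1 : ℝ) ≤ 2 ^ k := one_le_pow₀ (by norm_num)
  -- the probabilities
  obtain ⟨q, hqd⟩ : ∃ q, q = qq Q / L := ⟨_, rfl⟩
  obtain ⟨q', hq'd⟩ : ∃ q', q' = qq Q / Real.log Z := ⟨_, rfl⟩
  have hq0 : 0 < q := by rw [hqd]; positivity
  have hq'0 : 0 < q' := by rw [hq'd]; positivity
  have hq'η : q' * 2 ^ k ≤ η := by
    rw [hq'd, div_mul_eq_mul_div, div_le_iff₀ hlZ0]
    have : η * (L / 2) ≤ η * Real.log Z := mul_le_mul_of_nonneg_left hlZ2 hη0.le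
    linarith
  have hq'η' : q' ≤ η := by
    refine le_trans ?_ hq'η
    exact le_mul_of_one_le_right hq'0.le h2k
  have hq'1 : q' < 1 := by linarith
  have hqq' : (1 - ε) * q' ≤ q := by
    rw [hqd, hq'd, mul_div_assoc', div_le_div_iff₀ hlZ0 hL0]
    have := mul_le_mul_of_nonneg_left hlZ hq.le
    linarith
  have hqq'2 : q' ≤ 2 * q := by
    have : 1 / 2 * q' ≤ (1 - ε) * q' := mul_le_mul_of_nonneg_right (by linarith) hq'0.le
    linarith
  have hql : q ≤ q' := by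
    rw [hqd, hq'd]
    refine div_le_div_of_nonneg_left hq.le hlZ0 ?_
    rw [hL]
    refine Real.log_le_log hZpos ?_
    have e1 : Z ≤ D := by
      rw [hZ]
      unfold ZZ
      exact Nat.div_le_self _ _
    exact_mod_cast e1
  -- the arguments
  obtain ⟨T, hT⟩ : ∃ T, T = (range X).filter (GoodF Q F₀) := ⟨_, rfl⟩
  rw [← hT]
  have hTX : ∀ n ∈ T, n < X := by
    intro n hn
    rw [hT, mem_filter, mem_range] at hn
    exact hn.1
  have hal' : ∀ i, al i < Q := fun i => by rw [hal]; exact Nat.mod_lt _ (by omega)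
  have hbe' : ∀ i, be i < Q := fun i => by rw [hbe]; exact Nat.mod_lt _ (by omega)
  have hp : ∀ n ∈ T, ∀ i : Fin k, ∀ t < Z * Z, q ≤ level Q (vv Q Z (X + 2) al be i t n) ∧
      level Q (vv Q Z (X + 2) al be i t n) ≤ q' := by
    intro n hn i t ht
    obtain ⟨e1, e2⟩ := vv_bounds (R := X + 2) (X := X) hQ hal' hbe' rfl i ht (hTX n hn)
    rw [hT, mem_filter] at hn
    have e3 := vv_cop (Z := Z) (R := X + 2) hf hal hbe hn.2 i t
    have e4 : vv Q Z (X + 2) al be i t n ≤ D := by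
      refine e2.trans ?_
      rw [hZ, hX]
      unfold ZZ
      calc Q * (D / (Q * (XX κ k D + 2) ^ (2 * k + 2))) * (XX κ k D + 2) ^ (2 * k + 2) =
            D / (Q * (XX κ k D + 2) ^ (2 * k + 2)) * (Q * (XX κ k D + 2) ^ (2 * k + 2)) := by ring
        _ ≤ D := Nat.div_mul_le_self _ _
    constructor
    · rw [hqd, hL]
      refine le_level (x := (Z : ℝ)) ?_ hlZ0 hZpos (by exact_mod_cast e1) (by exact_mod_cast e4) e3
      have : q' ≤ 1 := hq'1.le
      rw [hq'd, div_le_one hlZ0] at this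
      exact this
    · rw [hq'd]
      exact level_le hlZ0 hZpos (by exact_mod_cast e1)
  have hgle : -(2 * q ^ k) + q' ^ (k + 1) ≤ 0 := by
    have e1 : q' ^ k ≤ (2 * q) ^ k := pow_le_pow_left₀ hq'0.le hqq'2 k
    rw [mul_pow] at e1
    have e2 : q' ^ (k + 1) ≤ q' * (2 ^ k * q ^ k) := by
      rw [pow_succ, mul_comm]
      exact mul_le_mul_of_nonneg_left e1 hq'0.le
    have e3 : q' * (2 ^ k * q ^ k) ≤ η * q ^ k := by
      calc q' * (2 ^ k * q ^ k) = (q' * 2 ^ k) * q ^ k := by ring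
        _ ≤ η * q ^ k := mul_le_mul_of_nonneg_right hq'η (by positivity)
    have e4 : 0 < q ^ k := by positivity
    nlinarith
  obtain ⟨lo, hlo⟩ : ∃ lo, lo = (1 - q' ^ k) ^ T.card := ⟨_, rfl⟩
  obtain ⟨b, hb⟩ : ∃ b, b = Real.exp (((T.card : ℝ) - 1) * (-(2 * q ^ k) + q' ^ (k + 1))) := ⟨_, rfl⟩
  have key := fam_sys (μ := μ) (X := X) (R := X + 2) hA hQ hk hal' hbe' (by omega) (by omega) hZ1 hTX hq'0.le hq'1 hq0 hp
    (le_refl _) hgle hlo hb
  refine key.trans ?_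
  -- the mean
  have hmean : (T.card : ℝ) * q' ^ k ≤ c * L := by
    have e1 := (countF_real hQ F₀ 0 X).2
    rw [zero_add, show Ico 0 X = range X from (range_eq_Ico X).symm, ← hT] at e1
    have e2 := mul_le_mul_of_nonneg_right e1 (show 0 ≤ q' ^ k by positivity)
    refine e2.trans ?_
    have e3 : ((X : ℝ) + Q) * ((ccF Q F₀ : ℝ) / Q) * q' ^ k = ((X : ℝ) + Q) * s / Real.log Z ^ k := by
      rw [hs, singF_eq, hF₀, hq'd, div_pow]
      ring
    rw [e3]
    have hLk : L ≤ L ^ (k + 1) := le_self_pow₀ h1 (by omega)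
    have e4 : (X : ℝ) + Q ≤ κ * (1 + ε) * L ^ (k + 1) := by
      have : κ * ε * L ≤ κ * ε * L ^ (k + 1) := mul_le_mul_of_nonneg_left hLk (by positivity)
      linarith
    have e5 : ((1 - ε) * L) ^ k ≤ Real.log Z ^ k := pow_le_pow_left₀ (mul_nonneg (by linarith) hL0.le) hlZ k
    have e6 : 0 < ((1 - ε) * L) ^ k := pow_pos (mul_pos (by linarith) hL0) k
    calc ((X : ℝ) + Q) * s / Real.log Z ^ k ≤ κ * (1 + ε) * L ^ (k + 1) * s / ((1 - ε) * L) ^ k :=
          div_le_div₀ (by positivity) (mul_le_mul_of_nonneg_right e4 hs0) e6 e5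
      _ = s * κ * (1 + ε) / (1 - ε) ^ k * L := by
          rw [mul_pow, pow_succ]
          have : (1 - ε) ^ k ≠ 0 := (pow_pos (by linarith) k).ne'
          field_simp
      _ ≤ c * L := mul_le_mul_of_nonneg_right hε2 hL0.le
  obtain ⟨l, hl⟩ : ∃ l, l = (T.card : ℝ) * q' ^ k := ⟨_, rfl⟩
  rw [← hl] at hmean
  have hl0 : 0 ≤ l := by rw [hl]; positivity
  have hq'kη : q' ^ k ≤ η := by
    calc q' ^ k ≤ q' ^ 1 := pow_le_pow_of_le_one hq'0.le hq'1.le hk
      _ = q' := pow_one _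
      _ ≤ η := hq'η'
  have hlow : Real.exp (-(l * (1 + 4 * η))) ≤ lo := by
    rw [hlo]
    refine one_sub_pow_ge hη0 (by linarith) hl0 (by positivity) hq'kη ?_
    rw [← hl]
    nlinarith
  have hlo0 : 0 < lo := lt_of_lt_of_le (Real.exp_pos _) hlow
  have hbup : b ≤ Real.exp (-(2 * l) + (2 * k + 1) * η * l + 2) := by
    rw [hb]
    refine Real.exp_le_exp.2 ?_
    have e1 : (1 - k * ε) * q' ^ k ≤ q ^ k := by
      have e2 : ((1 - ε) * q') ^ k ≤ q ^ k := pow_le_pow_left₀ (mul_nonneg (by linarith) hq'0.le) hqq' k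
      rw [mul_pow] at e2
      have e3 : 1 - k * ε ≤ (1 - ε) ^ k := by
        have := one_add_mul_le_pow (show (-2 : ℝ) ≤ -ε by linarith) k
        calc 1 - k * ε = 1 + k * (-ε) := by ring
          _ ≤ (1 + -ε) ^ k := this
          _ = (1 - ε) ^ k := by rw [← sub_eq_add_neg]
      have e4 := mul_le_mul_of_nonneg_right e3 (show 0 ≤ q' ^ k by positivity)
      linarith
    have e2 : (T.card : ℝ) * ((1 - k * ε) * q' ^ k) ≤ T.card * q ^ k := mul_le_mul_of_nonneg_left e1 (Nat.cast_nonneg _)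
    have e3 : (T.card : ℝ) * ((1 - k * ε) * q' ^ k) = (1 - k * ε) * l := by rw [hl]; ring
    have e4 : (T.card : ℝ) * q' ^ (k + 1) ≤ η * l := by
      rw [pow_succ, ← mul_assoc, ← hl, mul_comm]
      exact mul_le_mul_of_nonneg_right hq'η' hl0
    have e5 : q ^ k ≤ 1 := pow_le_one₀ hq0.le (by linarith)
    have e6 : 0 ≤ q' ^ (k + 1) := by positivity
    have e7 : k * ε * l ≤ k * η * l :=
      mul_le_mul_of_nonneg_right (mul_le_mul_of_nonneg_left hε1 hk0.le) hl0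
    nlinarith
  have hZe : Real.exp ((1 - η) * L) ≤ Z := by
    refine le_trans (Real.exp_le_exp.2 ?_) h4
    exact mul_le_mul_of_nonneg_right (by linarith) hL0.le
  -- the first term
  have hfirst : 1 / ((Z : ℝ) ^ (2 * k) * lo) ≤ Real.exp (-(δ * L)) := by
    rw [Real.exp_neg, one_div]
    refine inv_anti₀ (Real.exp_pos _) ?_
    have e1 : Real.exp ((2 * k) * ((1 - η) * L)) ≤ (Z : ℝ) ^ (2 * k) := by
      have := pow_le_pow_left₀ (Real.exp_pos _).le hZe (2 * k)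
      rw [← Real.exp_nat_mul] at this
      push_cast at this
      exact this
    have e2 : Real.exp (-(c * L * (1 + 4 * η))) ≤ lo := by
      refine le_trans (Real.exp_le_exp.2 ?_) hlow
      have := mul_le_mul_of_nonneg_right hmean (show 0 ≤ 1 + 4 * η by linarith)
      linarith
    calc Real.exp (δ * L) ≤ Real.exp ((2 * k) * ((1 - η) * L) + -(c * L * (1 + 4 * η))) := by
          refine Real.exp_le_exp.2 ?_
          have e3 : δ ≤ 2 * k - c - η * (2 * k + 4 * c) := by linarith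
          have e4 := mul_le_mul_of_nonneg_right e3 hL0.le
          linarith
      _ = Real.exp ((2 * k) * ((1 - η) * L)) * Real.exp (-(c * L * (1 + 4 * η))) := Real.exp_add _ _
      _ ≤ (Z : ℝ) ^ (2 * k) * lo := mul_le_mul e1 e2 (Real.exp_pos _).le (by positivity)
  -- the second term
  have hsecond : k * X * (Z : ℝ) ^ (4 * k - 1) * b / ((Z : ℝ) ^ (2 * k) * lo) ^ 2 ≤ Real.exp (-(δ * L)) := by
    have e1 : k * X * (Z : ℝ) ^ (4 * k - 1) * b / ((Z : ℝ) ^ (2 * k) * lo) ^ 2 = k * X * (b / (Z * lo ^ 2)) := by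
      have e2 : ((Z : ℝ) ^ (2 * k) * lo) ^ 2 = (Z : ℝ) ^ (4 * k - 1) * (Z * lo ^ 2) := by
        rw [mul_pow, ← pow_mul, ← mul_assoc, ← pow_succ]
        congr 2
        omega
      rw [e2]
      field_simp
    rw [e1]
    have e3 : Real.exp ((1 - η) * L - 2 * (l * (1 + 4 * η))) ≤ Z * lo ^ 2 := by
      have e4 : Real.exp (-(l * (1 + 4 * η))) ^ 2 ≤ lo ^ 2 := pow_le_pow_left₀ (Real.exp_pos _).le hlow 2
      have e5 : Real.exp ((1 - η) * L - 2 * (l * (1 + 4 * η))) =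
          Real.exp ((1 - η) * L) * Real.exp (-(l * (1 + 4 * η))) ^ 2 := by
        rw [← Real.exp_nat_mul, ← Real.exp_add]
        congr 1
        push_cast
        ring
      rw [e5]
      exact mul_le_mul hZe e4 (by positivity) hZpos.le
    have e6 : b / (Z * lo ^ 2) ≤ Real.exp (-(2 * l) + (2 * k + 1) * η * l + 2 - ((1 - η) * L - 2 * (l * (1 + 4 * η)))) := by
      rw [Real.exp_sub]
      exact div_le_div₀ (Real.exp_pos _).le hbup (Real.exp_pos _) e3
    have e7 : -(2 * l) + (2 * k + 1) * η * l + 2 - ((1 - η) * L - 2 * (l * (1 + 4 * η))) ≤ 2 - L / 2 := by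
      have e8 : (2 * k + 9) * η * l ≤ (2 * k + 9) * η * (c * L) := mul_le_mul_of_nonneg_left hmean (by positivity)
      have e9 := mul_le_mul_of_nonneg_right hη3 hL0.le
      linarith
    have e8 : (k : ℝ) * X ≤ Real.exp (Real.log k + δ' * L) := by
      rw [Real.exp_add, Real.exp_log hk0]
      exact mul_le_mul_of_nonneg_left g5 hk0.le
    calc (k : ℝ) * X * (b / (Z * lo ^ 2)) ≤ Real.exp (Real.log k + δ' * L) * Real.exp (2 - L / 2) := by
          refine mul_le_mul e8 (e6.trans (Real.exp_le_exp.2 e7)) ?_ (Real.exp_pos _).le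
          have : 0 ≤ b := by rw [hb]; positivity
          positivity
      _ = Real.exp (Real.log k + δ' * L + (2 - L / 2)) := (Real.exp_add _ _).symm
      _ ≤ Real.exp (-(δ * L)) := by
          refine Real.exp_le_exp.2 ?_
          rw [div_le_iff₀ hδ'0] at g2
          have e9 : δ * L ≤ 1 / 4 * L := mul_le_mul_of_nonneg_right hδ2 hL0.le
          have e10 : δ' * L = δ * L / 2 := by rw [hδ']; ring
          linarith
  linarith

end Pool.Agent.Q106.LF
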